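import Pool.Agent.K7.H42.SSE.Lists

set_option autoImplicit false
set_option linter.unusedSectionVars false

/-!
# Reductions to small-set expansion given by polynomials of low degree
-/

namespace Pool.Agent.K7.H42.SSE

open Finset
open scoped Classical
open Pool.Agent.Y601.SSE (cut lost differ edges_eq)

section fourier

variable {I : Type} [Fintype I] [DecidableEq I]

/-- the sign of a bit -/
def sg (b : Bool) : ℝ := if b then -1 else 1

/-- the characters -/
def chi (S : Finset I) (x : I → Bool) : ℝ := ∏ i ∈ S, sg (x i)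

theorem sg_not (b : Bool) : sg (!b) = - sg b := by cases b <;> simp [sg]

theorem sg_sq (b : Bool) : sg b * sg b = 1 := by cases b <;> simp [sg]

theorem flip_self (i : I) (x : I → Bool) : flip i x i = !(x i) := by
  show Pool.Agent.Y601.SSE.flip i x i = _
  unfold Pool.Agent.Y601.SSE.flip
  rw [Function.update_self]

theorem flip_ne {i j : I} (h : j ≠ i) (x : I → Bool) : flip i x j = x j := by
  show Pool.Agent.Y601.SSE.flip i x j = _
  unfold Pool.Agent.Y601.SSE.flip
  rw [Function.update_of_ne h]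

theorem chi_flip (S : Finset I) (i : I) (x : I → Bool) :
    chi S (flip i x) = if i ∈ S then - chi S x else chi S x := by
  unfold chi
  split_ifs with h
  · rw [← mul_prod_erase S _ h, ← mul_prod_erase S (fun i => sg (x i)) h, flip_self, sg_not]
    have : ∏ j ∈ S.erase i, sg (flip i x j) = ∏ j ∈ S.erase i, sg (x j) :=
      prod_congr rfl fun j hj => by rw [flip_ne (ne_of_mem_erase hj)]
    rw [this]
    ring
  · refine prod_congr rfl fun j hj => ?_
    rw [flip_ne (fun e => h (by rw [← e]; exact hj))]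

theorem chi_sq (S : Finset I) (x : I → Bool) : chi S x * chi S x = 1 := by
  unfold chi
  rw [← prod_mul_distrib]
  exact prod_eq_one fun i _ => sg_sq _

theorem chi_orth {S T : Finset I} (h : S ≠ T) : ∑ x : I → Bool, chi S x * chi T x = 0 := by
  obtain ⟨i, hi⟩ : ∃ i, ¬ (i ∈ S ↔ i ∈ T) := by
    by_contra hcon
    push Not at hcon
    exact h (Finset.ext hcon)
  have h1 : ∑ x : I → Bool, chi S (flip i x) * chi T (flip i x) = ∑ x : I → Bool, chi S x * chi T x :=
    Equiv.sum_comp (flipEquiv i) (fun x => chi S x * chi T x)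
  have h2 : ∀ x : I → Bool, chi S (flip i x) * chi T (flip i x) = - (chi S x * chi T x) := by
    intro x
    rw [chi_flip, chi_flip]
    by_cases hS : i ∈ S <;> by_cases hT : i ∈ T
    · exact absurd (iff_of_true hS hT) hi
    · simp [hS, hT]
    · simp [hS, hT]
    · exact absurd (iff_of_false hS hT) hi
  rw [sum_congr rfl fun x _ => h2 x, sum_neg_distrib] at h1
  linarith

theorem sum_sq_chi (F : Finset (Finset I)) (c : Finset I → ℝ) :
    ∑ x : I → Bool, (∑ S ∈ F, c S * chi S x) ^ 2 = 2 ^ Fintype.card I * ∑ S ∈ F, c S ^ 2 := by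
  have h1 : ∀ x : I → Bool, (∑ S ∈ F, c S * chi S x) ^ 2 =
      ∑ S ∈ F, ∑ T ∈ F, c S * c T * (chi S x * chi T x) := by
    intro x
    rw [sq, sum_mul_sum]
    exact sum_congr rfl fun S _ => sum_congr rfl fun T _ => by ring
  rw [sum_congr rfl fun x _ => h1 x, sum_comm, mul_sum]
  refine sum_congr rfl fun S hS => ?_
  rw [sum_comm, sum_eq_single S]
  · rw [← mul_sum, sum_congr rfl fun x _ => chi_sq S x, sum_const, card_univ, Fintype.card_fun,
      Fintype.card_bool, nsmul_eq_mul]
    push_cast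
    ring
  · intro T _ hT
    rw [← mul_sum, chi_orth (Ne.symm hT), mul_zero]
  · intro h
    exact absurd hS h

/-- `p` is a combination of characters of at most `D` variables -/
def Low (D : ℕ) (p : (I → Bool) → ℝ) : Prop :=
  ∃ c : Finset I → ℝ, ∀ x, p x = ∑ S ∈ univ.filter (fun S : Finset I => S.card ≤ D), c S * chi S x

/-- the energy inequality -/
theorem energy {D : ℕ} {p : (I → Bool) → ℝ} (hp : Low D p) :
    ∑ x, ∑ i, (p x - p (flip i x)) ^ 2 ≤ 4 * D * ∑ x, p x ^ 2 := by
  obtain ⟨c, hc⟩ := hp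
  set F := univ.filter (fun S : Finset I => S.card ≤ D) with hF
  have h1 : ∀ i x, p x - p (flip i x) = ∑ S ∈ F, (if i ∈ S then 2 * c S else 0) * chi S x := by
    intro i x
    rw [hc, hc, ← sum_sub_distrib]
    refine sum_congr rfl fun S _ => ?_
    rw [chi_flip]
    split_ifs <;> ring
  have h2 : ∀ i, ∑ x, (p x - p (flip i x)) ^ 2 =
      2 ^ Fintype.card I * ∑ S ∈ F, (if i ∈ S then 2 * c S else 0) ^ 2 := by
    intro i
    rw [← sum_sq_chi]
    exact sum_congr rfl fun x _ => by rw [h1]
  have h3 : ∑ x, p x ^ 2 = 2 ^ Fintype.card I * ∑ S ∈ F, c S ^ 2 := by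
    rw [← sum_sq_chi]
    exact sum_congr rfl fun x _ => by rw [hc]
  rw [sum_comm, sum_congr rfl fun i _ => h2 i, h3, ← mul_sum, sum_comm]
  have h4 : ∑ S ∈ F, ∑ i, (if i ∈ S then 2 * c S else 0) ^ 2 ≤ 4 * D * ∑ S ∈ F, c S ^ 2 := by
    rw [mul_sum]
    refine sum_le_sum fun S hS => ?_
    have e : ∀ i, (if i ∈ S then 2 * c S else 0) ^ 2 = if i ∈ S then 4 * c S ^ 2 else 0 := by
      intro i
      split_ifs <;> ring
    rw [sum_congr rfl fun i _ => e i, ← sum_filter, sum_const, nsmul_eq_mul]
    have e2 : (univ.filter fun i => i ∈ S) = S := by ext; simp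
    rw [e2]
    have hS' : (S.card : ℝ) ≤ D := by
      rw [hF, mem_filter] at hS
      exact_mod_cast hS.2
    nlinarith [sq_nonneg (c S)]
  calc 2 ^ Fintype.card I * ∑ S ∈ F, ∑ i, (if i ∈ S then 2 * c S else 0) ^ 2
      ≤ 2 ^ Fintype.card I * (4 * D * ∑ S ∈ F, c S ^ 2) :=
        mul_le_mul_of_nonneg_left h4 (by positivity)
    _ = 4 * D * (2 ^ Fintype.card I * ∑ S ∈ F, c S ^ 2) := by ring

/-! ### polynomials -/

theorem low_add {D : ℕ} {p q : (I → Bool) → ℝ} (hp : Low D p) (hq : Low D q) :
    Low D (fun x => p x + q x) := by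
  obtain ⟨c, hc⟩ := hp
  obtain ⟨e, he⟩ := hq
  refine ⟨fun S => c S + e S, fun x => ?_⟩
  show p x + q x = _
  rw [hc, he, ← sum_add_distrib]
  exact sum_congr rfl fun S _ => by ring

theorem low_smul {D : ℕ} {p : (I → Bool) → ℝ} (a : ℝ) (hp : Low D p) :
    Low D (fun x => a * p x) := by
  obtain ⟨c, hc⟩ := hp
  refine ⟨fun S => a * c S, fun x => ?_⟩
  show a * p x = _
  rw [hc, mul_sum]
  exact sum_congr rfl fun S _ => by ring

theorem low_sum {D : ℕ} {J : Type} (A : Finset J) (p : J → (I → Bool) → ℝ)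
    (hp : ∀ j ∈ A, Low D (p j)) : Low D (fun x => ∑ j ∈ A, p j x) := by
  induction A using Finset.induction_on with
  | empty =>
    refine ⟨fun _ => 0, fun x => ?_⟩
    simp
  | insert j A hj ih =>
    have h1 := low_add (hp j (mem_insert_self _ _)) (ih fun i hi => hp i (mem_insert_of_mem hi))
    obtain ⟨c, hc⟩ := h1
    refine ⟨c, fun x => ?_⟩
    show ∑ j ∈ insert j A, p j x = _
    rw [sum_insert hj, ← hc]

theorem low_chi {D : ℕ} {S : Finset I} (hS : S.card ≤ D) : Low D (chi S) := by
  refine ⟨fun T => if T = S then 1 else 0, fun x => ?_⟩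
  rw [sum_eq_single S]
  · simp
  · intro T _ hT
    simp [hT]
  · intro h
    exact absurd (mem_filter.2 ⟨mem_univ S, hS⟩) h

/-- the bits as real numbers -/
def bits (x : I → Bool) : I → ℝ := fun i => if x i = true then 1 else 0

theorem bit_eq (x : I → Bool) (i : I) : bits x i = 1 / 2 + (-(1 / 2)) * sg (x i) := by
  unfold bits sg
  cases x i <;> norm_num

theorem low_prod_bits (S : Finset I) {D : ℕ} (hS : S.card ≤ D) :
    Low D (fun x => ∏ i ∈ S, bits x i) := by
  have h1 : (fun x : I → Bool => ∏ i ∈ S, bits x i) =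
      fun x => ∑ T ∈ S.powerset, ((1 / 2) ^ T.card * (-(1 / 2)) ^ (S \ T).card) * chi (S \ T) x := by
    funext x
    rw [prod_congr rfl fun i _ => bit_eq x i, prod_add]
    refine sum_congr rfl fun T hT => ?_
    rw [prod_const, prod_mul_distrib, prod_const]
    unfold chi
    ring
  rw [h1]
  refine low_sum _ _ fun T hT => low_smul _ (low_chi ?_)
  exact (card_le_card sdiff_subset).trans hS

theorem low_poly (P : MvPolynomial I ℝ) {D : ℕ} (hP : P.totalDegree ≤ D) :
    Low D (fun x => MvPolynomial.eval (bits x) P) := by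
  have h1 : (fun x : I → Bool => MvPolynomial.eval (bits x) P) =
      fun x => ∑ m ∈ P.support, P.coeff m * ∏ i ∈ m.support, bits x i := by
    funext x
    rw [MvPolynomial.eval_eq]
    refine sum_congr rfl fun m _ => ?_
    congr 1
    refine prod_congr rfl fun i hi => ?_
    have hm : m i ≠ 0 := Finsupp.mem_support_iff.1 hi
    unfold bits
    split_ifs
    · exact one_pow _
    · exact zero_pow hm
  rw [h1]
  refine low_sum _ _ fun m hm => low_smul _ (low_prod_bits _ ?_)
  have h2 : m.support.card ≤ m.sum fun _ e => e := by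
    rw [Finsupp.sum, card_eq_sum_ones]
    refine sum_le_sum fun i hi => ?_
    have : m i ≠ 0 := Finsupp.mem_support_iff.1 hi
    omega
  exact h2.trans ((MvPolynomial.le_totalDegree hm).trans hP)

/-- `P` computes `h` up to the error `e` -/
def Approx (e : ℝ) (P : MvPolynomial I ℝ) (h : (I → Bool) → Bool) : Prop :=
  ∀ x, |MvPolynomial.eval (bits x) P - (if h x = true then 1 else 0)| ≤ e

/-- the number of sensitive pairs of a function of low degree -/
theorem sens_exact {D : ℕ} {h : (I → Bool) → Bool} (P : MvPolynomial I ℝ) (hP : P.totalDegree ≤ D)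
    (hh : Approx 0 P h) :
    ((∑ x, (univ.filter fun i => h x ≠ h (flip i x)).card : ℕ) : ℝ) ≤
      4 * D * ((univ.filter fun x => h x = true).card : ℝ) := by
  have h0 : ∀ x, MvPolynomial.eval (bits x) P = if h x = true then 1 else 0 := by
    intro x
    have := hh x
    have h1 := abs_nonpos_iff.1 this
    linarith
  have h1 := energy (low_poly P hP)
  have h2 : ∑ x : I → Bool, (MvPolynomial.eval (bits x) P) ^ 2 =
      ((univ.filter fun x => h x = true).card : ℝ) := by
    rw [card_filter]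
    push_cast
    refine sum_congr rfl fun x _ => ?_
    rw [h0]
    split_ifs <;> norm_num
  have h3 : ∑ x : I → Bool, ∑ i, (MvPolynomial.eval (bits x) P -
      MvPolynomial.eval (bits (flip i x)) P) ^ 2 =
      ((∑ x, (univ.filter fun i => h x ≠ h (flip i x)).card : ℕ) : ℝ) := by
    push_cast
    refine sum_congr rfl fun x _ => ?_
    rw [card_filter]
    push_cast
    refine sum_congr rfl fun i _ => ?_
    rw [h0, h0]
    cases h x <;> cases h (flip i x) <;> norm_num
  rw [h2, h3] at h1
  exact h1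

/-- the number of sensitive pairs of a function of low approximate degree -/
theorem sens_approx {D : ℕ} {h : (I → Bool) → Bool} (P : MvPolynomial I ℝ) (hP : P.totalDegree ≤ D)
    (hh : Approx (1 / 3) P h) :
    ((∑ x, (univ.filter fun i => h x ≠ h (flip i x)).card : ℕ) : ℝ) ≤
      64 * D * 2 ^ Fintype.card I := by
  have h1 := energy (low_poly P hP)
  have hval : ∀ x, h x = true → 2 / 3 ≤ MvPolynomial.eval (bits x) P ∧
      MvPolynomial.eval (bits x) P ≤ 4 / 3 := by
    intro x hx
    have := abs_le.1 (hh x)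
    rw [if_pos hx] at this
    constructor <;> linarith
  have hval' : ∀ x, h x = false → - (1 / 3) ≤ MvPolynomial.eval (bits x) P ∧
      MvPolynomial.eval (bits x) P ≤ 1 / 3 := by
    intro x hx
    have := abs_le.1 (hh x)
    rw [if_neg (by rw [hx]; simp)] at this
    constructor <;> linarith
  have h2 : ∑ x : I → Bool, (MvPolynomial.eval (bits x) P) ^ 2 ≤ 16 / 9 * 2 ^ Fintype.card I := by
    have : ∀ x ∈ (univ : Finset (I → Bool)), (MvPolynomial.eval (bits x) P) ^ 2 ≤ 16 / 9 := by
      intro x _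
      cases hx : h x
      · have := hval' x hx
        nlinarith
      · have := hval x hx
        nlinarith
    have h3 := sum_le_sum this
    rw [sum_const, card_univ, Fintype.card_fun, Fintype.card_bool, nsmul_eq_mul] at h3
    push_cast at h3
    linarith
  have h3 : ((∑ x, (univ.filter fun i => h x ≠ h (flip i x)).card : ℕ) : ℝ) * (1 / 9) ≤
      ∑ x : I → Bool, ∑ i, (MvPolynomial.eval (bits x) P -
        MvPolynomial.eval (bits (flip i x)) P) ^ 2 := by
    push_cast
    rw [sum_mul]
    refine sum_le_sum fun x _ => ?_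
    rw [card_filter]
    push_cast
    rw [sum_mul]
    refine sum_le_sum fun i _ => ?_
    split_ifs with hx
    · cases hx1 : h x
      · have h4 : h (flip i x) = true := by
          rw [hx1] at hx
          simpa using hx.symm
        have e1 := hval' x hx1
        have e2 := hval _ h4
        nlinarith
      · have h4 : h (flip i x) = false := by
          rw [hx1] at hx
          simpa using hx.symm
        have e1 := hval x hx1
        have e2 := hval' _ h4
        nlinarith
    · rw [zero_mul]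
      positivity
  have hD : (0 : ℝ) ≤ D := Nat.cast_nonneg _
  have h5 : 4 * (D : ℝ) * ∑ x : I → Bool, (MvPolynomial.eval (bits x) P) ^ 2 ≤
      4 * D * (16 / 9 * 2 ^ Fintype.card I) := mul_le_mul_of_nonneg_left h2 (by positivity)
  linarith

end fourier

section bounds

variable {I : Type} [Fintype I] [DecidableEq I] {V : Type} [Fintype V]

/-- the sensitive pairs of all the entries of the matrix -/
theorem entries_low {f : (I → Bool) → Bool} {G : (I → Bool) → SimpleGraph V}
    {d : (I → Bool) → ℕ} {k s : ℕ} {ε η : ℝ} (h : Reduces f G d k ε η) (hk : k ≤ Fintype.card V)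
    (hε : 0 ≤ ε) (hη : 0 ≤ η) (hεη : ε + η < 1) (hs : ∀ x, s ≤ sens f x) :
    (1 - ε - η) * k * s * (∑ x, (d x : ℝ)) ≤
      ∑ p : V × V, ((∑ x, (univ.filter fun i => decide ((G x).Adj p.1 p.2) ≠
        decide ((G (flip i x)).Adj p.1 p.2)).card : ℕ) : ℝ) := by
  have h1 := total_lost h hk hε hη hεη hs
  have h2 := sum_bd_two (fun (p : V × V) x => decide ((G x).Adj p.1 p.2))
  have h3 : ∑ p : V × V, bd (univ.filter fun x => decide ((G x).Adj p.1 p.2) = true)
      (univ.filter fun x => decide ((G x).Adj p.1 p.2) = false) =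
      ∑ x, ∑ i, lost (G x) (G (flip i x)) := by
    rw [← sum_bd]
    refine sum_congr rfl fun p _ => ?_
    congr 1
    · exact filter_congr fun x _ => by simp
    · exact filter_congr fun x _ => by simp
  rw [h3] at h2
  have h4 : ∑ p : V × V, ∑ x, (univ.filter fun i => decide ((G x).Adj p.1 p.2) ≠
        decide ((G (flip i x)).Adj p.1 p.2)).card =
      ∑ x, ∑ i, (univ.filter fun p : V × V => decide ((G x).Adj p.1 p.2) ≠
        decide ((G (flip i x)).Adj p.1 p.2)).card := by
    rw [sum_comm]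
    refine sum_congr rfl fun x _ => ?_
    simp_rw [card_filter]
    exact sum_comm
  rw [← h4] at h2
  have h5 : (2 : ℝ) * ∑ x, ∑ i, (lost (G x) (G (flip i x)) : ℝ) =
      ∑ p : V × V, ((∑ x, (univ.filter fun i => decide ((G x).Adj p.1 p.2) ≠
        decide ((G (flip i x)).Adj p.1 p.2)).card : ℕ) : ℝ) := by
    exact_mod_cast h2
  linarith

theorem sum_ones {f : (I → Bool) → Bool} {G : (I → Bool) → SimpleGraph V}
    {d : (I → Bool) → ℕ} {k : ℕ} {ε η : ℝ} (h : Reduces f G d k ε η) :
    ∑ p : V × V, ((univ.filter fun x => decide ((G x).Adj p.1 p.2) = true).card : ℝ) =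
      Fintype.card V * ∑ x, (d x : ℝ) := by
  have h1 : ∀ p : V × V, ((univ.filter fun x => decide ((G x).Adj p.1 p.2) = true).card : ℝ) =
      ∑ x, if (G x).Adj p.1 p.2 then (1 : ℝ) else 0 := by
    intro p
    rw [card_filter]
    push_cast
    exact sum_congr rfl fun x _ => by simp
  rw [sum_congr rfl fun p _ => h1 p, sum_comm, mul_sum]
  refine sum_congr rfl fun x _ => ?_
  have h2 : ∑ p : V × V, (if (G x).Adj p.1 p.2 then (1 : ℝ) else 0) =
      ((univ.filter fun p : V × V => (G x).Adj p.1 p.2).card : ℝ) := by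
    rw [card_filter]
    push_cast
    rfl
  rw [h2, edges_eq (h.regular x)]
  push_cast
  ring

/-- entries of low degree -/
theorem exact_bound {f : (I → Bool) → Bool} {G : (I → Bool) → SimpleGraph V}
    {d : (I → Bool) → ℕ} {k s D : ℕ} {ε η : ℝ} (h : Reduces f G d k ε η) (hk : k ≤ Fintype.card V)
    (hk1 : 1 ≤ k) (hε : 0 ≤ ε) (hη : 0 ≤ η) (hεη : ε + η < 1) (hs : ∀ x, s ≤ sens f x)
    (hP : ∀ u v, ∃ P : MvPolynomial I ℝ, P.totalDegree ≤ D ∧
      Approx 0 P (fun x => decide ((G x).Adj u v))) :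
    (1 - ε - η) * (k / Fintype.card V) * s ≤ 4 * D := by
  have hn0 : (0 : ℝ) < Fintype.card V := by exact_mod_cast (lt_of_lt_of_le hk1 hk)
  have hD0 : 0 < ∑ x, (d x : ℝ) := by
    refine sum_pos (fun x _ => ?_) univ_nonempty
    exact_mod_cast h.pos x
  have h1 := entries_low h hk hε hη hεη hs
  have h2 : ∑ p : V × V, ((∑ x, (univ.filter fun i => decide ((G x).Adj p.1 p.2) ≠
        decide ((G (flip i x)).Adj p.1 p.2)).card : ℕ) : ℝ) ≤
      ∑ p : V × V, 4 * (D : ℝ) *
        ((univ.filter fun x => decide ((G x).Adj p.1 p.2) = true).card : ℝ) := by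
    refine sum_le_sum fun p _ => ?_
    obtain ⟨P, hP1, hP2⟩ := hP p.1 p.2
    exact sens_exact P hP1 hP2
  rw [← mul_sum, sum_ones h] at h2
  have h3 := h1.trans h2
  have e1 : (1 - ε - η) * (k / Fintype.card V) * s =
      ((1 - ε - η) * k * s * (∑ x, (d x : ℝ))) / (Fintype.card V * ∑ x, (d x : ℝ)) := by
    field_simp
  rw [e1, div_le_iff₀ (by positivity)]
  linarith

/-- entries of low approximate degree -/
theorem approx_bound {f : (I → Bool) → Bool} {G : (I → Bool) → SimpleGraph V}
    {d : (I → Bool) → ℕ} {k s D : ℕ} {ε η : ℝ} (h : Reduces f G d k ε η) (hk : k ≤ Fintype.card V)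
    (hk1 : 1 ≤ k) (hε : 0 ≤ ε) (hη : 0 ≤ η) (hεη : ε + η < 1) (hs : ∀ x, s ≤ sens f x)
    (hP : ∀ u v, ∃ P : MvPolynomial I ℝ, P.totalDegree ≤ D ∧
      Approx (1 / 3) P (fun x => decide ((G x).Adj u v))) :
    (1 - ε - η) * (k / Fintype.card V) * s *
      (((∑ x, (d x : ℝ)) / 2 ^ Fintype.card I) / Fintype.card V) ≤ 64 * D := by
  have hn0 : (0 : ℝ) < Fintype.card V := by exact_mod_cast (lt_of_lt_of_le hk1 hk)
  have h1 := entries_low h hk hε hη hεη hs
  have h2 : ∑ p : V × V, ((∑ x, (univ.filter fun i => decide ((G x).Adj p.1 p.2) ≠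
        decide ((G (flip i x)).Adj p.1 p.2)).card : ℕ) : ℝ) ≤
      ∑ p : V × V, 64 * (D : ℝ) * 2 ^ Fintype.card I := by
    refine sum_le_sum fun p _ => ?_
    obtain ⟨P, hP1, hP2⟩ := hP p.1 p.2
    exact sens_approx P hP1 hP2
  rw [sum_const, card_univ, Fintype.card_prod, nsmul_eq_mul] at h2
  push_cast at h2
  have h3 := h1.trans (by push_cast; exact h2)
  have e1 : (1 - ε - η) * (k / Fintype.card V) * s *
      (((∑ x, (d x : ℝ)) / 2 ^ Fintype.card I) / Fintype.card V) =
      ((1 - ε - η) * k * s * (∑ x, (d x : ℝ))) /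
        (Fintype.card V * Fintype.card V * 2 ^ Fintype.card I) := by
    field_simp
  rw [e1, div_le_iff₀ (by positivity)]
  linarith

/-- lists with bits of low approximate degree -/
theorem approx_list {f : (I → Bool) → Bool} {G : (I → Bool) → SimpleGraph V}
    {d k s B D : ℕ} {ε η : ℝ} (h : Reduces f G (fun _ => d) k ε η) (hk : k ≤ Fintype.card V)
    (hk1 : 1 ≤ k) (hε : 0 ≤ ε) (hη : 0 ≤ η) (hεη : ε + η < 1) (hs : ∀ x, s ≤ sens f x)
    (nb : (I → Bool) → V → Fin d → V) (hnb : ∀ x, Lists (G x) (nb x))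
    (code : V → Fin B → Bool) (hcode : Function.Injective code)
    (hP : ∀ u j b, ∃ P : MvPolynomial I ℝ, P.totalDegree ≤ D ∧
      Approx (1 / 3) P (fun x => code (nb x u j) b)) :
    (1 - ε - η) * (k / Fintype.card V) * s ≤ 128 * B * D := by
  have hn0 : (0 : ℝ) < Fintype.card V := by exact_mod_cast (lt_of_lt_of_le hk1 hk)
  have hd1 : 1 ≤ d := h.pos fun _ => true
  have hd0 : (0 : ℝ) < d := by exact_mod_cast hd1
  have h2N : (0 : ℝ) < 2 ^ Fintype.card I := by positivity
  let g : ((V × Fin d) × Fin B) → (I → Bool) → Bool := fun r x => code (nb x r.1.1 r.1.2) r.2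
  have h1 := total_lost h hk hε hη hεη hs
  have h3 : ∀ x i, (lost (G x) (G (flip i x)) : ℝ) ≤
      ((univ.filter fun r => g r x ≠ g r (flip i x)).card : ℝ) := by
    intro x i
    have e1 := (lost_le_changed (hnb x) (hnb (flip i x))).trans
      (changed_le_bits code hcode)
    exact_mod_cast e1
  have h4 : ∑ x, ∑ i, (lost (G x) (G (flip i x)) : ℝ) ≤
      ∑ r, ((∑ x, (univ.filter fun i => g r x ≠ g r (flip i x)).card : ℕ) : ℝ) := by
    have e : ∑ r, ∑ x, (univ.filter fun i => g r x ≠ g r (flip i x)).card =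
        ∑ x, ∑ i, (univ.filter fun r => g r x ≠ g r (flip i x)).card := by
      rw [sum_comm]
      refine sum_congr rfl fun x _ => ?_
      simp_rw [card_filter]
      exact sum_comm
    have e' : ∑ r, ((∑ x, (univ.filter fun i => g r x ≠ g r (flip i x)).card : ℕ) : ℝ) =
        ∑ x, ∑ i, ((univ.filter fun r => g r x ≠ g r (flip i x)).card : ℝ) := by
      exact_mod_cast e
    rw [e']
    exact sum_le_sum fun x _ => sum_le_sum fun i _ => h3 x i
  have h5 : ∑ r, ((∑ x, (univ.filter fun i => g r x ≠ g r (flip i x)).card : ℕ) : ℝ) ≤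
      ∑ _r : (V × Fin d) × Fin B, 64 * (D : ℝ) * 2 ^ Fintype.card I := by
    refine sum_le_sum fun r _ => ?_
    obtain ⟨P, hP1, hP2⟩ := hP r.1.1 r.1.2 r.2
    exact sens_approx P hP1 hP2
  rw [sum_const, card_univ, Fintype.card_prod, Fintype.card_prod, Fintype.card_fin,
    Fintype.card_fin, nsmul_eq_mul] at h5
  push_cast at h5
  have h6 : (∑ _x : I → Bool, (d : ℝ)) = 2 ^ Fintype.card I * d := by
    rw [sum_const, nsmul_eq_mul, card_univ, Fintype.card_fun, Fintype.card_bool]
    push_cast
    rfl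
  rw [h6] at h1
  have h7 : (1 - ε - η) * k * s * (2 ^ Fintype.card I * d) / 2 ≤
      (Fintype.card V * d * B) * (64 * D * 2 ^ Fintype.card I) :=
    h1.trans (h4.trans (by push_cast; exact h5))
  have e1 : (1 - ε - η) * (k / Fintype.card V) * s =
      ((1 - ε - η) * k * s * (2 ^ Fintype.card I * d)) /
        (Fintype.card V * (2 ^ Fintype.card I * d)) := by
    field_simp
  rw [e1, div_le_iff₀ (by positivity)]
  calc (1 - ε - η) * k * s * (2 ^ Fintype.card I * d) =
      2 * ((1 - ε - η) * k * s * (2 ^ Fintype.card I * d) / 2) := by ring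
    _ ≤ 2 * ((Fintype.card V * d * B) * (64 * D * 2 ^ Fintype.card I)) := by linarith
    _ = 128 * B * D * (Fintype.card V * (2 ^ Fintype.card I * d)) := by ring

end bounds

end Pool.Agent.K7.H42.SSE
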