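import Pool.Agent.K7.H42.SSE.Khr

set_option autoImplicit false
set_option linter.unusedSectionVars false

/-!
# Reductions to small-set expansion computed by formulas
-/

namespace Pool.Agent.K7.H42.SSE

open Finset
open scoped Classical
open Pool.Agent.Y601.SSE (cut lost differ edges_eq)

section

variable {I : Type} [Fintype I] [DecidableEq I] {V : Type} [Fintype V]

/-- `G` reduces `f` to small-set expansion, on the inputs of one length: `G x` is a `d x`-regular
graph with `d x ≥ 1`; if `f x` is true then some set of `k` vertices has expansion at most `ε`, and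
if `f x` is false then all sets of `k` vertices have expansion at least `1 - η`. -/
structure Reduces (f : (I → Bool) → Bool) (G : (I → Bool) → SimpleGraph V)
    (d : (I → Bool) → ℕ) (k : ℕ) (ε η : ℝ) : Prop where
  regular : ∀ x v, (univ.filter fun w => (G x).Adj v w).card = d x
  pos : ∀ x, 1 ≤ d x
  yes : ∀ x, f x = true → ∃ S : Finset V, S.card = k ∧ (cut (G x) S : ℝ) ≤ ε * (d x * k)
  no : ∀ x, f x = false → ∀ S : Finset V, S.card = k → (1 - η) * (d x * k) ≤ cut (G x) S

/-- the sensitivity of `f` at `x` -/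
noncomputable def sens (f : (I → Bool) → Bool) (x : I → Bool) : ℕ :=
  (univ.filter fun i => f (flip i x) ≠ f x).card

theorem flip_flip (i : I) (x : I → Bool) : flip i (flip i x) = x :=
  Pool.Agent.Y601.SSE.flip_flip i x

/-- flipping a coordinate is a bijection -/
def flipEquiv (i : I) : (I → Bool) ≃ (I → Bool) where
  toFun := flip i
  invFun := flip i
  left_inv := flip_flip i
  right_inv := flip_flip i

theorem sum_flip {M : Type} [AddCommMonoid M] (g : I → (I → Bool) → M) :
    ∑ x, ∑ i, g i (flip i x) = ∑ x, ∑ i, g i x := by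
  rw [sum_comm, sum_comm (f := fun x i => g i x)]
  refine sum_congr rfl fun i _ => ?_
  exact Equiv.sum_comp (flipEquiv i) (fun x => g i x)

theorem pair_le {f : (I → Bool) → Bool} {G : (I → Bool) → SimpleGraph V} {d : (I → Bool) → ℕ}
    {k : ℕ} {ε η : ℝ} (h : Reduces f G d k ε η) (hk : k ≤ Fintype.card V) (hε : 0 ≤ ε)
    (hη : 0 ≤ η) (hεη : ε + η < 1) {x y : I → Bool} (hxy : f y ≠ f x) :
    (1 - ε - η) * k * ((d x : ℝ) + d y) / 2 ≤ (lost (G x) (G y) : ℝ) + lost (G y) (G x) := by
  cases hx : f x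
  · have hy : f y = true := by
      rw [hx] at hxy
      simpa using hxy
    have := differ (h.regular y) (h.regular x) hk ε η hε hη hεη (h.yes y hy) (h.no x hx)
    rw [add_comm (d x : ℝ), add_comm (lost (G x) (G y) : ℝ)]
    exact this
  · have hy : f y = false := by
      rw [hx] at hxy
      simpa using hxy
    exact differ (h.regular x) (h.regular y) hk ε η hε hη hεη (h.yes x hx) (h.no y hy)

theorem total_lost {f : (I → Bool) → Bool} {G : (I → Bool) → SimpleGraph V} {d : (I → Bool) → ℕ}
    {k s : ℕ} {ε η : ℝ} (h : Reduces f G d k ε η) (hk : k ≤ Fintype.card V) (hε : 0 ≤ ε)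
    (hη : 0 ≤ η) (hεη : ε + η < 1) (hs : ∀ x, s ≤ sens f x) :
    (1 - ε - η) * k * s * (∑ x, (d x : ℝ)) / 2 ≤
      ∑ x, ∑ i, (lost (G x) (G (flip i x)) : ℝ) := by
  have h0 : 0 ≤ 1 - ε - η := by linarith
  set L : ℝ := ∑ x, ∑ i, (lost (G x) (G (flip i x)) : ℝ) with hL
  have hL' : ∑ x, ∑ i, (lost (G (flip i x)) (G x) : ℝ) = L := by
    have := sum_flip (I := I) (M := ℝ) (fun i x => (lost (G x) (G (flip i x)) : ℝ))
    simp only [flip_flip] at this
    exact this
  set W : ℝ := ∑ x, ∑ i : I, (if f (flip i x) ≠ f x then (d x : ℝ) else 0) with hW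
  have hW' : ∑ x, ∑ i : I, (if f (flip i x) ≠ f x then (d (flip i x) : ℝ) else 0) = W := by
    have := sum_flip (I := I) (M := ℝ) (fun i x => (if f (flip i x) ≠ f x then (d x : ℝ) else 0))
    simp only [flip_flip] at this
    rw [hW, ← this]
    refine sum_congr rfl fun x _ => sum_congr rfl fun i _ => ?_
    by_cases hx : f (flip i x) = f x
    · simp [hx]
    · simp [hx, Ne.symm hx]
  have hWs : s * ∑ x, (d x : ℝ) ≤ W := by
    rw [mul_sum, hW]
    refine sum_le_sum fun x _ => ?_
    rw [← sum_filter, sum_const, nsmul_eq_mul]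
    exact mul_le_mul_of_nonneg_right (by exact_mod_cast hs x) (Nat.cast_nonneg _)
  have hmain : (1 - ε - η) * k * ((W + W) / 2) ≤ L + L := by
    have e1 : (1 - ε - η) * k * ((W + W) / 2) =
        ∑ x, ∑ i : I, (if f (flip i x) ≠ f x then
          (1 - ε - η) * k * ((d x : ℝ) + d (flip i x)) / 2 else 0) := by
      nth_rewrite 2 [← hW']
      rw [hW, ← sum_add_distrib, sum_div, mul_sum]
      refine sum_congr rfl fun x _ => ?_
      rw [← sum_add_distrib, sum_div, mul_sum]
      refine sum_congr rfl fun i _ => ?_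
      split_ifs
      · ring
      · simp
    have e2 : L + L = ∑ x, ∑ i, ((lost (G x) (G (flip i x)) : ℝ) + lost (G (flip i x)) (G x)) := by
      nth_rewrite 2 [← hL']
      rw [hL, ← sum_add_distrib]
      exact sum_congr rfl fun x _ => by rw [← sum_add_distrib]
    rw [e1, e2]
    refine sum_le_sum fun x _ => sum_le_sum fun i _ => ?_
    split_ifs with hx
    · exact pair_le h hk hε hη hεη hx
    · positivity
  have h1 : (1 - ε - η) * k * (s * ∑ x, (d x : ℝ)) ≤ (1 - ε - η) * k * W :=
    mul_le_mul_of_nonneg_left hWs (by positivity)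
  nlinarith

/-- the sum over the entries of the boundaries -/
theorem sum_bd (G : (I → Bool) → SimpleGraph V) :
    ∑ p : V × V, bd (univ.filter fun x => (G x).Adj p.1 p.2)
      (univ.filter fun x => ¬ (G x).Adj p.1 p.2) =
      ∑ x, ∑ i, lost (G x) (G (flip i x)) := by
  unfold bd lost
  have h1 : ∀ p : V × V, ∑ x ∈ univ.filter (fun x => (G x).Adj p.1 p.2),
      (univ.filter fun i => flip i x ∈ univ.filter fun x => ¬ (G x).Adj p.1 p.2).card =
      ∑ x, ∑ i, if (G x).Adj p.1 p.2 ∧ ¬ (G (flip i x)).Adj p.1 p.2 then 1 else 0 := by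
    intro p
    rw [sum_filter]
    refine sum_congr rfl fun x _ => ?_
    split_ifs with hx
    · rw [card_filter]
      refine sum_congr rfl fun i _ => ?_
      simp [hx]
    · simp [hx]
  rw [sum_congr rfl fun p _ => h1 p, sum_comm]
  refine sum_congr rfl fun x _ => ?_
  rw [sum_comm]
  exact sum_congr rfl fun i _ => by rw [card_filter]

/-- the main estimate for adjacency matrices -/
theorem matrix_bound {f : (I → Bool) → Bool} {G : (I → Bool) → SimpleGraph V}
    {d : (I → Bool) → ℕ} {k s : ℕ} {ε η : ℝ} (h : Reduces f G d k ε η) (hk : k ≤ Fintype.card V)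
    (hk1 : 1 ≤ k) (hε : 0 ≤ ε) (hη : 0 ≤ η) (hεη : ε + η < 1) (hs : ∀ x, s ≤ sens f x)
    (F : V → V → Formula I) (hF : ∀ x u v, (F u v).eval x = true ↔ (G x).Adj u v) :
    ((1 - ε - η) * (k / Fintype.card V) * s) ^ 2 / 4 *
      ((∑ x, ((univ.filter fun p : V × V => (G x).Adj p.1 p.2).card : ℝ)) /
        2 ^ Fintype.card I) ≤
      ∑ u, ∑ v, ((F u v).leaves : ℝ) := by
  set n : ℝ := (Fintype.card V : ℝ) with hn
  set N := Fintype.card I with hN
  set D : ℝ := ∑ x, (d x : ℝ) with hD
  have hn0 : 0 < n := by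
    rw [hn]
    exact_mod_cast (lt_of_lt_of_le hk1 hk)
  have hD0 : 0 < D := by
    rw [hD]
    refine sum_pos (fun x _ => ?_) univ_nonempty
    exact_mod_cast h.pos x
  have hones : ∑ x, ((univ.filter fun p : V × V => (G x).Adj p.1 p.2).card : ℝ) = n * D := by
    rw [hD, mul_sum]
    refine sum_congr rfl fun x _ => ?_
    rw [edges_eq (h.regular x), hn]
    push_cast
    ring
  rw [hones]
  set A : V × V → Finset (I → Bool) := fun p => univ.filter fun x => (G x).Adj p.1 p.2 with hA
  set B : V × V → Finset (I → Bool) := fun p => univ.filter fun x => ¬ (G x).Adj p.1 p.2 with hB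
  set T : ℝ := ∑ p : V × V, (bd (A p) (B p) : ℝ) with hT
  have hTlow : (1 - ε - η) * k * s * D / 2 ≤ T := by
    have h1 := total_lost h hk hε hη hεη hs
    have h2 : T = ∑ x, ∑ i, (lost (G x) (G (flip i x)) : ℝ) := by
      rw [hT]
      exact_mod_cast sum_bd G
    rw [h2]
    exact h1
  have hTup : T ^ 2 ≤ (∑ p : V × V, ((F p.1 p.2).leaves : ℝ)) *
      ∑ p : V × V, ((A p).card : ℝ) * 2 ^ N := by
    rw [hT]
    refine sum_sq_le_sum_mul_sum_of_sq_le_mul _ (fun _ _ => Nat.cast_nonneg _)
      (fun _ _ => by positivity) fun p _ => ?_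
    have h1 := khrapchenko (F p.1 p.2) (A p) (B p)
      (fun x hx => (hF x _ _).2 (mem_filter.1 hx).2)
      (fun x hx => by
        have := (mem_filter.1 hx).2
        rw [← hF x p.1 p.2] at this
        simpa using this)
    have h2 : (B p).card ≤ 2 ^ N := by
      refine (card_le_univ _).trans ?_
      rw [Fintype.card_fun, Fintype.card_bool]
    have h3 : bd (A p) (B p) ^ 2 ≤ (F p.1 p.2).leaves * ((A p).card * 2 ^ N) :=
      h1.trans (Nat.mul_le_mul_left _ (Nat.mul_le_mul_left _ h2))
    exact_mod_cast h3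
  have hsumA : ∑ p : V × V, ((A p).card : ℝ) = n * D := by
    rw [← hones]
    have h1 : ∀ p : V × V, ((A p).card : ℝ) = ∑ x, if (G x).Adj p.1 p.2 then (1 : ℝ) else 0 := by
      intro p
      show ((univ.filter fun x => (G x).Adj p.1 p.2).card : ℝ) = _
      rw [card_filter]
      push_cast
      rfl
    rw [sum_congr rfl fun p _ => h1 p, sum_comm]
    refine sum_congr rfl fun x _ => ?_
    rw [card_filter]
    push_cast
    rfl
  rw [← sum_mul, hsumA] at hTup
  have hFsum : ∑ p : V × V, ((F p.1 p.2).leaves : ℝ) = ∑ u, ∑ v, ((F u v).leaves : ℝ) :=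
    Fintype.sum_prod_type _
  rw [hFsum] at hTup
  set S : ℝ := ∑ u, ∑ v, ((F u v).leaves : ℝ) with hS
  have hγ : 0 < 1 - ε - η := by linarith
  have h2N : (0 : ℝ) < 2 ^ N := by positivity
  have hlow0 : 0 ≤ (1 - ε - η) * k * s * D / 2 := by positivity
  have h1 : ((1 - ε - η) * k * s * D / 2) ^ 2 ≤ S * (n * D * 2 ^ N) :=
    (pow_le_pow_left₀ hlow0 hTlow 2).trans hTup
  have e1 : ((1 - ε - η) * (k / n) * s) ^ 2 / 4 * (n * D / 2 ^ N) =
      ((1 - ε - η) * k * s * D / 2) ^ 2 / (n * D * 2 ^ N) := by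
    field_simp
    try ring
  rw [e1, div_le_iff₀ (by positivity)]
  exact h1

end

end Pool.Agent.K7.H42.SSE
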