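import Pool.Agent.Y601.SSE.Ac0

set_option autoImplicit false
set_option linter.unusedSectionVars false

/-!
# Formulas over AND, OR and literals; the lemma of Khrapchenko
-/

namespace Pool.Agent.K7.H42.SSE

open Finset
open scoped Classical

/-- De Morgan formulas over the variables `I` -/
inductive Formula (I : Type) : Type
  | const : Bool → Formula I
  | lit : I → Bool → Formula I
  | and : Formula I → Formula I → Formula I
  | or : Formula I → Formula I → Formula I

variable {I : Type}

/-- the number of literals in a formula -/
def Formula.leaves : Formula I → ℕ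
  | .const _ => 0
  | .lit _ _ => 1
  | .and A B => A.leaves + B.leaves
  | .or A B => A.leaves + B.leaves

/-- the value of a formula; `lit i true` is the variable `i`, `lit i false` its negation -/
def Formula.eval (x : I → Bool) : Formula I → Bool
  | .const b => b
  | .lit i b => x i == b
  | .and A B => A.eval x && B.eval x
  | .or A B => A.eval x || B.eval x

variable [Fintype I] [DecidableEq I]

/-- flip one coordinate -/
abbrev flip (i : I) (x : I → Bool) : I → Bool := Pool.Agent.Y601.SSE.flip i x

/-- the number of pairs `(x, i)` with `x ∈ A` and `flip i x ∈ B` -/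
noncomputable def bd (A B : Finset (I → Bool)) : ℕ :=
  ∑ x ∈ A, (univ.filter fun i => flip i x ∈ B).card

theorem bd_union_left {A A' B : Finset (I → Bool)} (h : Disjoint A A') :
    bd (A ∪ A') B = bd A B + bd A' B := by
  unfold bd
  rw [sum_union h]

theorem bd_union_right {A B B' : Finset (I → Bool)} (h : Disjoint B B') :
    bd A (B ∪ B') = bd A B + bd A B' := by
  unfold bd
  rw [← sum_add_distrib]
  refine sum_congr rfl fun x _ => ?_
  rw [← card_union_of_disjoint]
  · congr 1
    ext i
    simp only [mem_filter, mem_univ, true_and, mem_union]
  · rw [disjoint_left]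
    intro i hi hi'
    simp only [mem_filter, mem_univ, true_and] at hi hi'
    exact disjoint_left.1 h hi hi'

theorem comb (e e' L L' a b b' : ℕ) (h : e ^ 2 ≤ L * (a * b)) (h' : e' ^ 2 ≤ L' * (a * b')) :
    (e + e') ^ 2 ≤ (L + L') * (a * (b + b')) := by
  have key : 2 * (e * e') ≤ a * (L * b' + L' * b) := by
    have h1 : (2 * (e * e')) ^ 2 ≤ (a * (L * b' + L' * b)) ^ 2 := by
      have h2 : (2 * (e * e')) ^ 2 = 4 * (e ^ 2 * e' ^ 2) := by ring
      have h3 : e ^ 2 * e' ^ 2 ≤ (L * (a * b)) * (L' * (a * b')) := Nat.mul_le_mul h h'
      have h4 : 4 * ((L * (a * b)) * (L' * (a * b'))) ≤ (a * (L * b' + L' * b)) ^ 2 := by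
        have h5 : (4 : ℤ) * ((L * (a * b)) * (L' * (a * b'))) ≤ (a * (L * b' + L' * b)) ^ 2 := by
          nlinarith [sq_nonneg ((a : ℤ) * (L * b' - L' * b))]
        exact_mod_cast h5
      rw [h2]
      exact (Nat.mul_le_mul_left 4 h3).trans h4
    exact (Nat.pow_le_pow_iff_left (by norm_num)).1 h1
  nlinarith

/-- **Khrapchenko's lemma.** -/
theorem khrapchenko (F : Formula I) : ∀ A B : Finset (I → Bool),
    (∀ x ∈ A, F.eval x = true) → (∀ x ∈ B, F.eval x = false) →
    bd A B ^ 2 ≤ F.leaves * (A.card * B.card) := by
  induction F with
  | const b =>
    intro A B hA hB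
    cases b with
    | false =>
      have : A = ∅ := by
        rw [eq_empty_iff_forall_notMem]
        intro x hx
        exact absurd (hA x hx) (by simp [Formula.eval])
      subst this
      simp [bd]
    | true =>
      have : B = ∅ := by
        rw [eq_empty_iff_forall_notMem]
        intro x hx
        exact absurd (hB x hx) (by simp [Formula.eval])
      subst this
      simp [bd]
  | lit i b =>
    intro A B hA hB
    have h1 : ∀ x ∈ A, (univ.filter fun j => flip j x ∈ B) ⊆ {i} := by
      intro x hx j hj
      rw [mem_filter] at hj
      rw [mem_singleton]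
      by_contra hne
      have h2 := hA x hx
      have h3 := hB _ hj.2
      have h4 : flip j x i = x i := by
        show Pool.Agent.Y601.SSE.flip j x i = x i
        unfold Pool.Agent.Y601.SSE.flip
        rw [Function.update_of_ne (Ne.symm hne)]
      simp only [Formula.eval] at h2 h3
      rw [h4, h2] at h3
      exact absurd h3 (by simp)
    have hcard : bd A B = (A.filter fun x => flip i x ∈ B).card := by
      unfold bd
      rw [card_filter]
      refine sum_congr rfl fun x hx => ?_
      split_ifs with h
      · have : (univ.filter fun j => flip j x ∈ B) = {i} := by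
          apply Subset.antisymm (h1 x hx)
          rw [singleton_subset_iff, mem_filter]
          exact ⟨mem_univ _, h⟩
        rw [this, card_singleton]
      · rw [card_eq_zero, eq_empty_iff_forall_notMem]
        intro j hj
        have := h1 x hx hj
        rw [mem_singleton] at this
        subst this
        rw [mem_filter] at hj
        exact h hj.2
    have ha : bd A B ≤ A.card := by
      rw [hcard]
      exact card_filter_le _ _
    have hb : bd A B ≤ B.card := by
      rw [hcard]
      apply card_le_card_of_injOn (fun x => flip i x)
      · intro x hx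
        have := (mem_filter.1 (mem_coe.1 hx)).2
        exact this
      · intro x _ y _ hxy
        have h5 := congrArg (flip i) hxy
        simpa [flip, Pool.Agent.Y601.SSE.flip_flip] using h5
    calc bd A B ^ 2 = bd A B * bd A B := sq _
      _ ≤ A.card * B.card := Nat.mul_le_mul ha hb
      _ = (Formula.lit i b).leaves * (A.card * B.card) := by simp [Formula.leaves]
  | and F G ihF ihG =>
    intro A B hA hB
    set B1 := B.filter fun x => F.eval x = false with hB1
    set B2 := B.filter fun x => ¬ F.eval x = false with hB2
    have hd : Disjoint B1 B2 := disjoint_filter_filter_not _ _ _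
    have hu : B1 ∪ B2 = B := filter_union_filter_not_eq _ _
    have h1 := ihF A B1 (fun x hx => by
      have := hA x hx
      simp only [Formula.eval, Bool.and_eq_true] at this
      exact this.1) (fun x hx => (mem_filter.1 hx).2)
    have h2 := ihG A B2 (fun x hx => by
      have := hA x hx
      simp only [Formula.eval, Bool.and_eq_true] at this
      exact this.2) (fun x hx => by
      obtain ⟨hx1, hx2⟩ := mem_filter.1 hx
      have := hB x hx1
      simp only [Formula.eval] at this
      cases hF : F.eval x
      · exact absurd hF hx2
      · rw [hF] at this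
        simpa using this)
    have h3 := comb _ _ _ _ _ _ _ h1 h2
    rw [← hu, bd_union_right hd, card_union_of_disjoint hd]
    exact h3
  | or F G ihF ihG =>
    intro A B hA hB
    set A1 := A.filter fun x => F.eval x = true with hA1
    set A2 := A.filter fun x => ¬ F.eval x = true with hA2
    have hd : Disjoint A1 A2 := disjoint_filter_filter_not _ _ _
    have hu : A1 ∪ A2 = A := filter_union_filter_not_eq _ _
    have h1 := ihF A1 B (fun x hx => (mem_filter.1 hx).2) (fun x hx => by
      have := hB x hx
      simp only [Formula.eval, Bool.or_eq_false_iff] at this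
      exact this.1)
    have h2 := ihG A2 B (fun x hx => by
      obtain ⟨hx1, hx2⟩ := mem_filter.1 hx
      have := hA x hx1
      simp only [Formula.eval] at this
      cases hF : F.eval x
      · rw [hF] at this
        simpa using this
      · exact absurd hF hx2) (fun x hx => by
      have := hB x hx
      simp only [Formula.eval, Bool.or_eq_false_iff] at this
      exact this.2)
    have h3 := comb (bd A1 B) (bd A2 B) F.leaves G.leaves B.card A1.card A2.card
      (by rw [mul_comm B.card]; exact h1) (by rw [mul_comm B.card]; exact h2)
    rw [← hu, bd_union_left hd, card_union_of_disjoint hd]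
    calc (bd A1 B + bd A2 B) ^ 2 ≤ (F.leaves + G.leaves) * (B.card * (A1.card + A2.card)) := h3
      _ = (F.or G).leaves * ((A1.card + A2.card) * B.card) := by
        simp only [Formula.leaves]; ring

end Pool.Agent.K7.H42.SSE
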