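import Pool.Agent.K7.H42.SSE.Form

set_option autoImplicit false
set_option linter.unusedSectionVars false

/-!
# Reductions which output lists of neighbours; formulas for parity
-/

namespace Pool.Agent.K7.H42.SSE

open Finset
open scoped Classical
open Pool.Agent.Y601.SSE (cut lost differ edges_eq)

section

variable {I : Type} [Fintype I] [DecidableEq I] {V : Type} [Fintype V]

/-- `nb u j` is the `j`-th entry of the list of the neighbours of `u` in `G` -/
def Lists {d : ℕ} (G : SimpleGraph V) (nb : V → Fin d → V) : Prop :=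
  ∀ u v, G.Adj u v ↔ ∃ j, nb u j = v

theorem lost_le_changed {d : ℕ} {G H : SimpleGraph V} {a b : V → Fin d → V} (ha : Lists G a)
    (hb : Lists H b) :
    lost G H ≤ (univ.filter fun p : V × Fin d => a p.1 p.2 ≠ b p.1 p.2).card := by
  unfold lost
  refine (card_le_card ?_).trans (card_image_le (s := univ.filter fun p : V × Fin d =>
    a p.1 p.2 ≠ b p.1 p.2) (f := fun p => (p.1, a p.1 p.2)))
  rintro ⟨u, v⟩ hp
  rw [mem_filter] at hp
  obtain ⟨-, h1, h2⟩ := hp
  obtain ⟨j, hj⟩ := (ha u v).1 h1
  rw [mem_image]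
  refine ⟨(u, j), ?_, by simp [hj]⟩
  rw [mem_filter]
  refine ⟨mem_univ _, fun h3 => h2 ?_⟩
  exact (hb u v).2 ⟨j, by rw [← hj]; exact h3.symm⟩

theorem changed_le_bits {d B : ℕ} {a b : V → Fin d → V} (code : V → Fin B → Bool)
    (hcode : Function.Injective code) :
    (univ.filter fun p : V × Fin d => a p.1 p.2 ≠ b p.1 p.2).card ≤
      (univ.filter fun r : (V × Fin d) × Fin B =>
        code (a r.1.1 r.1.2) r.2 ≠ code (b r.1.1 r.1.2) r.2).card := by
  refine (card_le_card ?_).trans (card_image_le (s := univ.filter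
    fun r : (V × Fin d) × Fin B => code (a r.1.1 r.1.2) r.2 ≠ code (b r.1.1 r.1.2) r.2)
    (f := fun r => r.1))
  intro p hp
  rw [mem_filter] at hp
  rw [mem_image]
  have h1 : code (a p.1 p.2) ≠ code (b p.1 p.2) := fun h => hp.2 (hcode h)
  obtain ⟨t, ht⟩ := Function.ne_iff.1 h1
  exact ⟨(p, t), by rw [mem_filter]; exact ⟨mem_univ _, ht⟩, rfl⟩

theorem sum_bd' {R : Type} [Fintype R] (g : R → (I → Bool) → Bool) :
    ∑ r, bd (univ.filter fun x => g r x = true) (univ.filter fun x => g r x = false) =
      ∑ x, ∑ i, (univ.filter fun r => g r x = true ∧ g r (flip i x) = false).card := by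
  unfold bd
  have h1 : ∀ r : R, ∑ x ∈ univ.filter (fun x => g r x = true),
      (univ.filter fun i => flip i x ∈ univ.filter fun x => g r x = false).card =
      ∑ x, ∑ i, if g r x = true ∧ g r (flip i x) = false then 1 else 0 := by
    intro r
    rw [sum_filter]
    refine sum_congr rfl fun x _ => ?_
    split_ifs with hx
    · rw [card_filter]
      refine sum_congr rfl fun i _ => ?_
      simp [hx]
    · simp [hx]
  rw [sum_congr rfl fun r _ => h1 r, sum_comm]
  refine sum_congr rfl fun x _ => ?_
  rw [sum_comm]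
  exact sum_congr rfl fun i _ => by rw [card_filter]

theorem sum_bd_two {R : Type} [Fintype R] (g : R → (I → Bool) → Bool) :
    2 * ∑ r, bd (univ.filter fun x => g r x = true) (univ.filter fun x => g r x = false) =
      ∑ x, ∑ i, (univ.filter fun r => g r x ≠ g r (flip i x)).card := by
  have h2 := sum_flip (I := I) (M := ℕ)
    (fun i x => (univ.filter fun r => g r x = true ∧ g r (flip i x) = false).card)
  simp only [flip_flip] at h2
  rw [two_mul]
  nth_rewrite 2 [sum_bd']
  rw [← h2, sum_bd', ← sum_add_distrib]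
  refine sum_congr rfl fun x _ => ?_
  rw [← sum_add_distrib]
  refine sum_congr rfl fun i _ => ?_
  rw [← card_union_of_disjoint]
  · congr 1
    ext r
    simp only [mem_union, mem_filter, mem_univ, true_and]
    cases g r x <;> cases g r (flip i x) <;> simp
  · rw [disjoint_left]
    intro r hr hr'
    simp only [mem_filter, mem_univ, true_and] at hr hr'
    rw [hr.1] at hr'
    exact absurd hr'.2 (by simp)

/-- the main estimate for lists of neighbours -/
theorem list_bound {f : (I → Bool) → Bool} {G : (I → Bool) → SimpleGraph V}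
    {d k s B : ℕ} {ε η : ℝ} (h : Reduces f G (fun _ => d) k ε η) (hk : k ≤ Fintype.card V)
    (hk1 : 1 ≤ k) (hε : 0 ≤ ε) (hη : 0 ≤ η) (hεη : ε + η < 1) (hs : ∀ x, s ≤ sens f x)
    (nb : (I → Bool) → V → Fin d → V) (hnb : ∀ x, Lists (G x) (nb x))
    (code : V → Fin B → Bool) (hcode : Function.Injective code)
    (F : V → Fin d → Fin B → Formula I) (hF : ∀ x u j b, (F u j b).eval x = code (nb x u j) b) :
    ((1 - ε - η) * (k / Fintype.card V) * s) ^ 2 * (Fintype.card V * d) ≤
      4 * B * ∑ u, ∑ j, ∑ b, ((F u j b).leaves : ℝ) := by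
  set n : ℝ := (Fintype.card V : ℝ) with hn
  set N := Fintype.card I with hN
  have hn0 : 0 < n := by
    rw [hn]
    exact_mod_cast (lt_of_lt_of_le hk1 hk)
  have hd1 : 1 ≤ d := h.pos fun _ => true
  have hd0 : (0 : ℝ) < d := by exact_mod_cast hd1
  let g : ((V × Fin d) × Fin B) → (I → Bool) → Bool := fun r x => (F r.1.1 r.1.2 r.2).eval x
  set T : ℝ := ∑ r, (bd (univ.filter fun x => g r x = true)
    (univ.filter fun x => g r x = false) : ℝ) with hT
  have hγ : 0 < 1 - ε - η := by linarith
  have h2N : (0 : ℝ) < 2 ^ N := by positivity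
  have hcardI : (Fintype.card (I → Bool) : ℝ) = 2 ^ N := by
    rw [Fintype.card_fun, Fintype.card_bool]
    push_cast
    rfl
  have hTlow : (1 - ε - η) * k * s * (2 ^ N * d) / 4 ≤ T := by
    have h1 := total_lost h hk hε hη hεη hs
    have hL' : ∑ x, ∑ i, (lost (G (flip i x)) (G x) : ℝ) =
        ∑ x, ∑ i, (lost (G x) (G (flip i x)) : ℝ) := by
      have := sum_flip (I := I) (M := ℝ) (fun i x => (lost (G x) (G (flip i x)) : ℝ))
      simp only [flip_flip] at this
      exact this
    have h2 : 2 * T = ∑ x, ∑ i, ((univ.filter fun r => g r x ≠ g r (flip i x)).card : ℝ) := by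
      rw [hT]
      exact_mod_cast sum_bd_two g
    have h3 : ∀ x i, (lost (G x) (G (flip i x)) : ℝ) + lost (G (flip i x)) (G x) ≤
        2 * ((univ.filter fun r => g r x ≠ g r (flip i x)).card : ℝ) := by
      intro x i
      have e1 := (lost_le_changed (hnb x) (hnb (flip i x))).trans
        (changed_le_bits code hcode)
      have e2 := (lost_le_changed (hnb (flip i x)) (hnb x)).trans
        (changed_le_bits code hcode)
      have e3 : (univ.filter fun r : (V × Fin d) × Fin B =>
          code (nb x r.1.1 r.1.2) r.2 ≠ code (nb (flip i x) r.1.1 r.1.2) r.2) =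
          univ.filter fun r => g r x ≠ g r (flip i x) := by
        refine filter_congr fun r _ => ?_
        rw [← hF, ← hF]
      have e4 : (univ.filter fun r : (V × Fin d) × Fin B =>
          code (nb (flip i x) r.1.1 r.1.2) r.2 ≠ code (nb x r.1.1 r.1.2) r.2) =
          univ.filter fun r => g r x ≠ g r (flip i x) := by
        refine filter_congr fun r _ => ?_
        rw [← hF, ← hF]
        exact ne_comm
      rw [e3] at e1
      rw [e4] at e2
      have : (lost (G x) (G (flip i x))) + lost (G (flip i x)) (G x) ≤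
        2 * (univ.filter fun r => g r x ≠ g r (flip i x)).card := by omega
      exact_mod_cast this
    have h4 : ∑ x, ∑ i, ((lost (G x) (G (flip i x)) : ℝ) + lost (G (flip i x)) (G x)) ≤
        2 * (2 * T) := by
      rw [h2, mul_sum]
      refine sum_le_sum fun x _ => ?_
      rw [mul_sum]
      exact sum_le_sum fun i _ => h3 x i
    have h5 : ∑ x, ∑ i, ((lost (G x) (G (flip i x)) : ℝ) + lost (G (flip i x)) (G x)) =
        (∑ x, ∑ i, (lost (G x) (G (flip i x)) : ℝ)) +
        ∑ x, ∑ i, (lost (G x) (G (flip i x)) : ℝ) := by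
      nth_rewrite 2 [← hL']
      rw [← sum_add_distrib]
      exact sum_congr rfl fun x _ => by rw [← sum_add_distrib]
    rw [h5] at h4
    have h6 : (∑ _x : I → Bool, (d : ℝ)) = 2 ^ N * d := by
      rw [sum_const, nsmul_eq_mul, card_univ, hcardI]
    rw [h6] at h1
    linarith
  have hTup : T ^ 2 ≤ (∑ r : (V × Fin d) × Fin B, ((F r.1.1 r.1.2 r.2).leaves : ℝ)) *
      ∑ _r : (V × Fin d) × Fin B, ((2 : ℝ) ^ N) ^ 2 / 4 := by
    rw [hT]
    refine sum_sq_le_sum_mul_sum_of_sq_le_mul _ (fun _ _ => Nat.cast_nonneg _)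
      (fun _ _ => by positivity) fun r _ => ?_
    have h1 := khrapchenko (F r.1.1 r.1.2 r.2) (univ.filter fun x => g r x = true)
      (univ.filter fun x => g r x = false)
      (fun x hx => (mem_filter.1 hx).2) (fun x hx => (mem_filter.1 hx).2)
    have h2 : ((univ.filter fun x => g r x = true).card : ℝ) +
        ((univ.filter fun x => g r x = false).card : ℝ) = 2 ^ N := by
      rw [← hcardI, ← card_univ (α := I → Bool),
        ← card_filter_add_card_filter_not (s := univ) (fun x => g r x = true)]
      push_cast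
      congr 2
      exact_mod_cast congrArg card (filter_congr fun x _ => by simp)
    have h3 : ((univ.filter fun x => g r x = true).card : ℝ) *
        ((univ.filter fun x => g r x = false).card : ℝ) ≤ ((2 : ℝ) ^ N) ^ 2 / 4 := by
      rw [← h2]
      nlinarith [sq_nonneg (((univ.filter fun x => g r x = true).card : ℝ) -
        ((univ.filter fun x => g r x = false).card : ℝ))]
    have h4 : (bd (univ.filter fun x => g r x = true)
        (univ.filter fun x => g r x = false) : ℝ) ^ 2 ≤
        ((F r.1.1 r.1.2 r.2).leaves : ℝ) * (((univ.filter fun x => g r x = true).card : ℝ) *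
        ((univ.filter fun x => g r x = false).card : ℝ)) := by exact_mod_cast h1
    exact h4.trans (mul_le_mul_of_nonneg_left h3 (Nat.cast_nonneg _))
  have hcnt : (∑ _r : (V × Fin d) × Fin B, ((2 : ℝ) ^ N) ^ 2 / 4) =
      n * d * B * (((2 : ℝ) ^ N) ^ 2 / 4) := by
    rw [sum_const, nsmul_eq_mul, card_univ, Fintype.card_prod, Fintype.card_prod,
      Fintype.card_fin, Fintype.card_fin]
    push_cast
    ring
  have hsum : (∑ r : (V × Fin d) × Fin B, ((F r.1.1 r.1.2 r.2).leaves : ℝ)) =
      ∑ u, ∑ j, ∑ b, ((F u j b).leaves : ℝ) := by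
    rw [Fintype.sum_prod_type, Fintype.sum_prod_type]
  rw [hcnt, hsum] at hTup
  set S : ℝ := ∑ u, ∑ j, ∑ b, ((F u j b).leaves : ℝ) with hS
  have hlow0 : 0 ≤ (1 - ε - η) * k * s * (2 ^ N * d) / 4 := by positivity
  have h1 : ((1 - ε - η) * k * s * (2 ^ N * d) / 4) ^ 2 ≤
      S * (n * d * B * (((2 : ℝ) ^ N) ^ 2 / 4)) :=
    (pow_le_pow_left₀ hlow0 hTlow 2).trans hTup
  have h2 : ((1 - ε - η) * k * s * d) ^ 2 ≤ 4 * (n * d * B) * S := by
    have h3 : ((1 - ε - η) * k * s * d) ^ 2 * (((2 : ℝ) ^ N) ^ 2 / 16) ≤
        4 * (n * d * B) * S * (((2 : ℝ) ^ N) ^ 2 / 16) := by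
      calc _ = ((1 - ε - η) * k * s * (2 ^ N * d) / 4) ^ 2 := by ring
        _ ≤ S * (n * d * B * (((2 : ℝ) ^ N) ^ 2 / 4)) := h1
        _ = _ := by ring
    exact le_of_mul_le_mul_right h3 (by positivity)
  have e1 : ((1 - ε - η) * (k / n) * s) ^ 2 * (n * d) = ((1 - ε - η) * k * s * d) ^ 2 / (n * d) := by
    field_simp
  rw [e1, div_le_iff₀ (by positivity)]
  calc ((1 - ε - η) * k * s * d) ^ 2 ≤ 4 * (n * d * B) * S := h2
    _ = 4 * B * S * (n * d) := by ring

end

/-! ### formulas for parity -/

section parity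

variable {I : Type}

/-- the formula which says that the sum of the variables `v j` is `1` (for `b = true`) or `0` modulo
two -/
def par : (m : ℕ) → (Fin (2 ^ m) → I) → Bool → Formula I
  | 0, v, b => .lit (v ⟨0, by norm_num⟩) b
  | m + 1, v, b =>
    let v1 : Fin (2 ^ m) → I := fun j => v (Fin.cast (by rw [pow_succ, mul_two])
      (Fin.castAdd (2 ^ m) j))
    let v2 : Fin (2 ^ m) → I := fun j => v (Fin.cast (by rw [pow_succ, mul_two])
      (Fin.natAdd (2 ^ m) j))
    .or (.and (par m v1 b) (par m v2 false)) (.and (par m v1 (!b)) (par m v2 true))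

theorem par_leaves (m : ℕ) : ∀ (v : Fin (2 ^ m) → I) (b : Bool),
    (par m v b).leaves = (2 ^ m) ^ 2 := by
  induction m with
  | zero => intro v b; rfl
  | succ m ih =>
    intro v b
    simp only [par, Formula.leaves, ih]
    ring

/-- the sum modulo two -/
def zsum {m : ℕ} (v : Fin m → I) (x : I → Bool) : ZMod 2 :=
  ∑ j, if x (v j) = true then (1 : ZMod 2) else 0

theorem par_eval (m : ℕ) : ∀ (v : Fin (2 ^ m) → I) (b : Bool) (x : I → Bool),
    (par m v b).eval x = true ↔ zsum v x = if b = true then 1 else 0 := by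
  induction m with
  | zero =>
    intro v b x
    have h1 : zsum v x = if x (v ⟨0, by norm_num⟩) = true then (1 : ZMod 2) else 0 := by
      unfold zsum
      exact Fin.sum_univ_one (fun j : Fin 1 => if x (v j) = true then (1 : ZMod 2) else 0)
    rw [h1]
    simp only [par, Formula.eval]
    cases x (v ⟨0, by norm_num⟩) <;> cases b <;> decide
  | succ m ih =>
    intro v b x
    set v1 : Fin (2 ^ m) → I := fun j => v (Fin.cast (by rw [pow_succ, mul_two])
      (Fin.castAdd (2 ^ m) j)) with hv1
    set v2 : Fin (2 ^ m) → I := fun j => v (Fin.cast (by rw [pow_succ, mul_two])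
      (Fin.natAdd (2 ^ m) j)) with hv2
    have h1 : zsum v x = zsum v1 x + zsum v2 x := by
      unfold zsum
      rw [← Fin.sum_univ_add (fun j : Fin (2 ^ m + 2 ^ m) =>
        if x (v (Fin.cast (by rw [pow_succ, mul_two]) j)) = true then (1 : ZMod 2) else 0)]
      exact (Equiv.sum_comp (finCongr (by rw [pow_succ, mul_two] : 2 ^ m + 2 ^ m = 2 ^ (m + 1)))
        (fun j => if x (v j) = true then (1 : ZMod 2) else 0)).symm
    have h2 : (par (m + 1) v b).eval x = true ↔
        ((par m v1 b).eval x = true ∧ (par m v2 false).eval x = true) ∨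
        ((par m v1 (!b)).eval x = true ∧ (par m v2 true).eval x = true) := by
      simp only [par, Formula.eval, Bool.or_eq_true, Bool.and_eq_true, hv1, hv2]
    rw [h2, ih, ih, ih, ih, h1]
    clear h2
    generalize zsum v1 x = a
    generalize zsum v2 x = c
    revert a c b
    decide

theorem zsum_id {N : ℕ} (x : Fin N → Bool) :
    zsum (fun j => j) x = 0 ↔ Even (univ.filter fun i => x i = true).card := by
  unfold zsum
  rw [sum_boole, ZMod.natCast_eq_zero_iff_even]

end parity

section sharp

variable {V : Type} [Fintype V]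

/-- formulas for a graph which depends on the parity of the input -/
theorem sharp (m : ℕ) (Y Z : SimpleGraph V) :
    ∃ F : V → V → Formula (Fin (2 ^ m)),
      (∀ x u v, (F u v).eval x = true ↔
        (if Even (univ.filter fun i => x i = true).card then Y else Z).Adj u v) ∧
      ∑ u, ∑ v, (F u v).leaves ≤ (2 ^ m) ^ 2 * (lost Y Z + lost Z Y) := by
  refine ⟨fun u v => if Y.Adj u v then (if Z.Adj u v then .const true else
    par m (fun j => j) false) else (if Z.Adj u v then par m (fun j => j) true else .const false),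
    ?_, ?_⟩
  · intro x u v
    have h0 : (par m (fun j => j) false).eval x = true ↔
        Even (univ.filter fun i => x i = true).card := by
      rw [par_eval, ← zsum_id]
      simp
    have h1 : (par m (fun j => j) true).eval x = true ↔
        ¬ Even (univ.filter fun i => x i = true).card := by
      rw [par_eval, ← zsum_id]
      have : ∀ a : ZMod 2, (a = if (true = true) then 1 else 0) ↔ ¬ a = 0 := by decide
      exact this _
    by_cases hY : Y.Adj u v <;> by_cases hZ : Z.Adj u v <;>
      by_cases hE : Even (univ.filter fun i => x i = true).card <;>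
      simp [hY, hZ, hE, h0, h1, Formula.eval]
  · have h1 : ∀ u v, (if Y.Adj u v then (if Z.Adj u v then (Formula.const true :
        Formula (Fin (2 ^ m))) else par m (fun j => j) false) else
        (if Z.Adj u v then par m (fun j => j) true else .const false)).leaves =
        (2 ^ m) ^ 2 * ((if Y.Adj u v ∧ ¬ Z.Adj u v then 1 else 0) +
          if Z.Adj u v ∧ ¬ Y.Adj u v then 1 else 0) := by
      intro u v
      by_cases hY : Y.Adj u v <;> by_cases hZ : Z.Adj u v <;>
        simp [hY, hZ, Formula.leaves, par_leaves]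
    rw [sum_congr rfl fun u _ => sum_congr rfl fun v _ => h1 u v]
    unfold lost
    rw [card_filter, card_filter, ← sum_add_distrib, mul_sum, Fintype.sum_prod_type]

end sharp

end Pool.Agent.K7.H42.SSE
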