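import Pool.Agent.K7.H42.SSE.Lists

set_option autoImplicit false
set_option linter.unusedSectionVars false

/-!
# Reductions to small-set expansion computed with few NOT gates
-/

namespace Pool.Agent.K7.H42.SSE

open Finset
open scoped Classical
open Pool.Agent.Y601.SSE (cut lost differ edges_eq)

/-- Circuits on `n` wires with `t` NOT gates and any number of monotone gates of any kind. Here `m` is
the function computed by the monotone gates below the first NOT gate (or below the output); the value of
the NOT gate is a further wire of the rest of the circuit. -/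
inductive Prog : ℕ → ℕ → Type
  | out {n : ℕ} (m : (Fin n → Bool) → Bool) (hm : Monotone m) : Prog n 0
  | neg {n t : ℕ} (m : (Fin n → Bool) → Bool) (hm : Monotone m) (rest : Prog (n + 1) t) :
      Prog n (t + 1)

/-- the value of a circuit -/
def Prog.eval : {n t : ℕ} → Prog n t → (Fin n → Bool) → Bool
  | _, _, .out m _, w => m w
  | _, _, .neg m _ rest, w => rest.eval (Fin.snoc w (!(m w)))

/-- the number of changes of `h` along the part from `a` to `b` of a sequence -/
noncomputable def changes {X : Type} (h : X → Bool) (w : ℕ → X) (a b : ℕ) : ℕ :=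
  ((Ico a b).filter fun j => h (w j) ≠ h (w (j + 1))).card

theorem changes_congr {X Y : Type} {h : X → Bool} {w : ℕ → X} {h' : Y → Bool} {w' : ℕ → Y}
    {a b : ℕ} (H : ∀ j, a ≤ j → j ≤ b → h (w j) = h' (w' j)) :
    changes h w a b = changes h' w' a b := by
  unfold changes
  congr 1
  refine filter_congr fun j hj => ?_
  rw [mem_Ico] at hj
  rw [H j hj.1 hj.2.le, H (j + 1) (by omega) (by omega)]

theorem changes_split {X : Type} (h : X → Bool) (w : ℕ → X) {a c b : ℕ} (hac : a ≤ c)
    (hcb : c ≤ b) : changes h w a b = changes h w a c + changes h w c b := by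
  unfold changes
  rw [← card_union_of_disjoint, ← filter_union, Ico_union_Ico_eq_Ico hac hcb]
  exact disjoint_filter_filter (Ico_disjoint_Ico_consecutive a c b)

theorem changes_one {X : Type} (h : X → Bool) (w : ℕ → X) (a : ℕ) :
    changes h w a (a + 1) ≤ 1 := by
  unfold changes
  refine (card_filter_le _ _).trans ?_
  simp

theorem changes_mono {n : ℕ} (m : (Fin n → Bool) → Bool) (hm : Monotone m)
    (w : ℕ → Fin n → Bool) (a b : ℕ) (hw : ∀ j, a ≤ j → j < b → w j ≤ w (j + 1)) :
    changes m w a b ≤ 1 := by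
  unfold changes
  rw [card_le_one]
  have hle : ∀ i j, a ≤ i → i ≤ j → j ≤ b → w i ≤ w j := by
    intro i j hi hij
    induction j, hij using Nat.le_induction with
    | base => intro _; exact le_rfl
    | succ j hij ih => intro hj; exact (ih (by omega)).trans (hw j (by omega) (by omega))
  have key : ∀ i j, i ∈ (Ico a b).filter (fun j => m (w j) ≠ m (w (j + 1))) →
      j ∈ (Ico a b).filter (fun j => m (w j) ≠ m (w (j + 1))) → ¬ i < j := by
    intro i j hi hj hij
    rw [mem_filter, mem_Ico] at hi hj
    have h1 := hm (hw i hi.1.1 hi.1.2)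
    have h2 := hm (hw j hj.1.1 hj.1.2)
    have h3 := hm (hle (i + 1) j (by omega) hij (by omega))
    have h4 := hi.2
    have h5 := hj.2
    revert h1 h2 h3 h4 h5
    cases m (w i) <;> cases m (w (i + 1)) <;> cases m (w j) <;> cases m (w (j + 1)) <;> decide
  intro i hi j hj
  have h1 := key i j hi hj
  have h2 := key j i hj hi
  omega

theorem snoc_mono {n : ℕ} {x y : Fin n → Bool} (h : x ≤ y) (b : Bool) :
    (Fin.snoc x b : Fin (n + 1) → Bool) ≤ Fin.snoc y b := by
  intro i
  refine Fin.lastCases ?_ (fun j => ?_) i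
  · simp
  · simpa using h j

/-- a circuit with `t` NOT gates changes at most `2 ^ (t + 1) - 1` times along a chain -/
theorem prog_changes {n t : ℕ} (p : Prog n t) : ∀ (w : ℕ → Fin n → Bool) (a b : ℕ), a ≤ b →
    (∀ j, a ≤ j → j < b → w j ≤ w (j + 1)) → changes p.eval w a b + 1 ≤ 2 ^ (t + 1) := by
  induction p with
  | out m hm =>
    intro w a b _ hw
    have := changes_mono m hm w a b hw
    show changes m w a b + 1 ≤ 2 ^ (0 + 1)
    omega
  | @neg n t m hm rest ih =>
    intro w a b hab hw
    have hle : ∀ i j, a ≤ i → i ≤ j → j ≤ b → w i ≤ w j := by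
      intro i j hi hij
      induction j, hij using Nat.le_induction with
      | base => intro _; exact le_rfl
      | succ j hij ih => intro hj; exact (ih (by omega)).trans (hw j (by omega) (by omega))
    have hev : ∀ x, (Prog.neg m hm rest).eval x = rest.eval (Fin.snoc x (!(m x))) := fun x => rfl
    by_cases hex : ∃ c, a ≤ c ∧ c ≤ b ∧ m (w c) = true
    · -- the first position at which `m` is true
      obtain ⟨hc1, hc2, hc3⟩ := Nat.find_spec hex
      set c := Nat.find hex with hc
      have hbelow : ∀ j, a ≤ j → j < c → m (w j) = false := by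
        intro j hj1 hj2
        have := Nat.find_min hex hj2
        simp only [not_and] at this
        have h1 := this hj1 (by omega)
        simpa using h1
      have habove : ∀ j, c ≤ j → j ≤ b → m (w j) = true := by
        intro j hj1 hj2
        have := hm (hle c j hc1 hj1 hj2)
        rw [hc3] at this
        exact top_le_iff.1 this
      have h2 : changes (Prog.neg m hm rest).eval w c b + 1 ≤ 2 ^ (t + 1) := by
        have e : changes (Prog.neg m hm rest).eval w c b =
            changes rest.eval (fun j => Fin.snoc (w j) false) c b := by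
          refine changes_congr fun j hj1 hj2 => ?_
          rw [hev, habove j hj1 hj2]
          rfl
        rw [e]
        exact ih _ c b hc2 fun j hj1 hj2 => snoc_mono (hw j (by omega) hj2) _
      rcases Nat.eq_or_lt_of_le hc1 with h | h
      · rw [← h] at h2
        calc changes (Prog.neg m hm rest).eval w a b + 1 ≤ 2 ^ (t + 1) := h2
          _ ≤ 2 ^ (t + 1 + 1) := Nat.pow_le_pow_right (by norm_num) (by omega)
      · clear_value c
        clear hc
        obtain ⟨c', rfl⟩ : ∃ c', c = c' + 1 := ⟨c - 1, by omega⟩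
        have h1 : changes (Prog.neg m hm rest).eval w a c' + 1 ≤ 2 ^ (t + 1) := by
          have e : changes (Prog.neg m hm rest).eval w a c' =
              changes rest.eval (fun j => Fin.snoc (w j) true) a c' := by
            refine changes_congr fun j hj1 hj2 => ?_
            rw [hev, hbelow j hj1 (by omega)]
            rfl
          rw [e]
          exact ih _ a c' (by omega) fun j hj1 hj2 => snoc_mono (hw j (by omega) (by omega)) _
        rw [changes_split _ _ (show a ≤ c' + 1 by omega) hc2,
          changes_split _ _ (show a ≤ c' by omega) (show c' ≤ c' + 1 by omega)]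
        have h3 := changes_one (Prog.neg m hm rest).eval w c'
        have h4 : 2 ^ (t + 1 + 1) = 2 ^ (t + 1) + 2 ^ (t + 1) := by ring
        omega
    · push Not at hex
      have e : changes (Prog.neg m hm rest).eval w a b =
          changes rest.eval (fun j => Fin.snoc (w j) true) a b := by
        refine changes_congr fun j hj1 hj2 => ?_
        have h1 := hex j hj1 hj2
        rw [hev, Bool.eq_false_iff.2 h1]
        rfl
      rw [e]
      have := ih (fun j => Fin.snoc (w j) true) a b hab
        fun j hj1 hj2 => snoc_mono (hw j hj1 hj2) _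
      exact this.trans (Nat.pow_le_pow_right (by norm_num) (by omega))

section bounds

variable {N : ℕ} {V : Type} [Fintype V]

/-- `x 0 ≤ x 1 ≤ ... ≤ x s` and `f` alternates along this chain -/
def Alternates (f : (Fin N → Bool) → Bool) (s : ℕ) (x : ℕ → Fin N → Bool) : Prop :=
  ∀ j < s, x j ≤ x (j + 1) ∧ f (x j) ≠ f (x (j + 1))

theorem lost_sum_le (K : Finset (V × V)) (G H : SimpleGraph V)
    (hK : ∀ p ∉ K, (G.Adj p.1 p.2 ↔ H.Adj p.1 p.2)) :
    lost G H + lost H G = (K.filter fun p => ¬ (G.Adj p.1 p.2 ↔ H.Adj p.1 p.2)).card := by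
  unfold lost
  rw [← card_union_of_disjoint]
  · congr 1
    ext p
    simp only [mem_union, mem_filter, mem_univ, true_and]
    constructor
    · intro h
      refine ⟨?_, by tauto⟩
      by_contra hp
      have := hK p hp
      tauto
    · intro h
      tauto
  · rw [disjoint_left]
    intro p hp hq
    simp only [mem_filter, mem_univ, true_and] at hp hq
    exact hq.2 hp.1

/-- adjacency matrices computed with few NOT gates -/
theorem neg_matrix {f : (Fin N → Bool) → Bool} {G : (Fin N → Bool) → SimpleGraph V}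
    {d : (Fin N → Bool) → ℕ} {k s t : ℕ} {ε η : ℝ} (h : Reduces f G d k ε η)
    (hk : k ≤ Fintype.card V) (hε : 0 ≤ ε) (hη : 0 ≤ η) (hεη : ε + η < 1)
    (x : ℕ → Fin N → Bool) (hx : Alternates f s x) (K : Finset (V × V))
    (hK : ∀ p ∉ K, ∀ y z, (G y).Adj p.1 p.2 ↔ (G z).Adj p.1 p.2)
    (hP : ∀ p ∈ K, ∃ P : Prog N t, ∀ y, P.eval y = true ↔ (G y).Adj p.1 p.2) :
    (1 - ε - η) * k * ∑ j ∈ range s, (((d (x j) : ℝ) + d (x (j + 1))) / 2) ≤
      K.card * (2 ^ (t + 1) - 1) := by
  have h1 : (1 - ε - η) * k * ∑ j ∈ range s, (((d (x j) : ℝ) + d (x (j + 1))) / 2) ≤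
      ∑ j ∈ range s, ((lost (G (x j)) (G (x (j + 1))) : ℝ) + lost (G (x (j + 1))) (G (x j))) := by
    rw [mul_sum]
    refine sum_le_sum fun j hj => ?_
    have := pair_le h hk hε hη hεη (Ne.symm (hx j (mem_range.1 hj)).2)
    linarith
  have h2 : (∑ j ∈ range s, ((lost (G (x j)) (G (x (j + 1))) : ℝ) +
      lost (G (x (j + 1))) (G (x j)))) =
      ((∑ p ∈ K, ((range s).filter fun j =>
        ¬ ((G (x j)).Adj p.1 p.2 ↔ (G (x (j + 1))).Adj p.1 p.2)).card : ℕ) : ℝ) := by
    have e : ∀ j, lost (G (x j)) (G (x (j + 1))) + lost (G (x (j + 1))) (G (x j)) =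
        (K.filter fun p => ¬ ((G (x j)).Adj p.1 p.2 ↔ (G (x (j + 1))).Adj p.1 p.2)).card :=
      fun j => lost_sum_le K _ _ fun p hp => hK p hp _ _
    have e' : ∀ j ∈ range s, (lost (G (x j)) (G (x (j + 1))) : ℝ) +
        lost (G (x (j + 1))) (G (x j)) =
        (((K.filter fun p => ¬ ((G (x j)).Adj p.1 p.2 ↔
          (G (x (j + 1))).Adj p.1 p.2)).card : ℕ) : ℝ) := by
      intro j _
      rw [← e j]
      push_cast
      rfl
    rw [sum_congr rfl e', ← Nat.cast_sum]
    congr 1
    simp_rw [card_filter]
    exact sum_comm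
  have h3 : ∀ p ∈ K, (((range s).filter fun j =>
      ¬ ((G (x j)).Adj p.1 p.2 ↔ (G (x (j + 1))).Adj p.1 p.2)).card : ℕ) + 1 ≤ 2 ^ (t + 1) := by
    intro p hp
    obtain ⟨P, hPe⟩ := hP p hp
    have := prog_changes P x 0 s (Nat.zero_le _) fun j _ hj => (hx j hj).1
    unfold changes at this
    rw [← range_eq_Ico] at this
    have e : ((range s).filter fun j => P.eval (x j) ≠ P.eval (x (j + 1))) =
        (range s).filter fun j => ¬ ((G (x j)).Adj p.1 p.2 ↔ (G (x (j + 1))).Adj p.1 p.2) := by
      refine filter_congr fun j _ => ?_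
      rw [← hPe, ← hPe, Ne, Bool.eq_iff_iff]
    rw [e] at this
    exact this
  rw [h2] at h1
  refine h1.trans ?_
  have h4 : (∑ p ∈ K, ((range s).filter fun j =>
        ¬ ((G (x j)).Adj p.1 p.2 ↔ (G (x (j + 1))).Adj p.1 p.2)).card : ℕ) ≤
      ∑ p ∈ K, (2 ^ (t + 1) - 1) := sum_le_sum fun p hp => by have := h3 p hp; omega
  rw [sum_const, smul_eq_mul] at h4
  have h5 : ((K.card * (2 ^ (t + 1) - 1) : ℕ) : ℝ) = K.card * (2 ^ (t + 1) - 1) := by
    rw [Nat.cast_mul, Nat.cast_sub Nat.one_le_two_pow]
    push_cast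
    rfl
  rw [← h5]
  exact_mod_cast h4

/-- lists of neighbours computed with few NOT gates -/
theorem neg_list {f : (Fin N → Bool) → Bool} {G : (Fin N → Bool) → SimpleGraph V}
    {d k s t B : ℕ} {ε η : ℝ} (h : Reduces f G (fun _ => d) k ε η)
    (hk : k ≤ Fintype.card V) (hk1 : 1 ≤ k) (hε : 0 ≤ ε) (hη : 0 ≤ η) (hεη : ε + η < 1)
    (x : ℕ → Fin N → Bool) (hx : Alternates f s x)
    (nb : (Fin N → Bool) → V → Fin d → V) (hnb : ∀ y, Lists (G y) (nb y))
    (code : V → Fin B → Bool) (hcode : Function.Injective code)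
    (hP : ∀ u j b, ∃ P : Prog N t, ∀ y, P.eval y = code (nb y u j) b) :
    (1 - ε - η) * (k / Fintype.card V) * s ≤ 2 * B * (2 ^ (t + 1) - 1) := by
  have hn0 : (0 : ℝ) < Fintype.card V := by exact_mod_cast (lt_of_lt_of_le hk1 hk)
  have hd1 : 1 ≤ d := h.pos fun _ => true
  have hd0 : (0 : ℝ) < d := by exact_mod_cast hd1
  choose P hPe using hP
  let bit : ((V × Fin d) × Fin B) → (Fin N → Bool) → Bool := fun r y => code (nb y r.1.1 r.1.2) r.2
  have h1 : ∀ j ∈ range s, (1 - ε - η) * k * d ≤
      2 * ((univ.filter fun r => bit r (x j) ≠ bit r (x (j + 1))).card : ℝ) := by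
    intro j hj
    have e0 := pair_le h hk hε hη hεη (Ne.symm (hx j (mem_range.1 hj)).2)
    have e1 := (lost_le_changed (hnb (x j)) (hnb (x (j + 1)))).trans (changed_le_bits code hcode)
    have e2 := (lost_le_changed (hnb (x (j + 1))) (hnb (x j))).trans (changed_le_bits code hcode)
    have e4 : (univ.filter fun r : (V × Fin d) × Fin B =>
        code (nb (x (j + 1)) r.1.1 r.1.2) r.2 ≠ code (nb (x j) r.1.1 r.1.2) r.2) =
        univ.filter fun r => bit r (x j) ≠ bit r (x (j + 1)) :=
      filter_congr fun r _ => ne_comm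
    rw [e4] at e2
    have e3 : (lost (G (x j)) (G (x (j + 1)))) + lost (G (x (j + 1))) (G (x j)) ≤
        2 * (univ.filter fun r => bit r (x j) ≠ bit r (x (j + 1))).card := by
      have : (univ.filter fun r : (V × Fin d) × Fin B =>
        code (nb (x j) r.1.1 r.1.2) r.2 ≠ code (nb (x (j + 1)) r.1.1 r.1.2) r.2) =
        univ.filter fun r => bit r (x j) ≠ bit r (x (j + 1)) := rfl
      rw [this] at e1
      omega
    have e3' : (lost (G (x j)) (G (x (j + 1))) : ℝ) + lost (G (x (j + 1))) (G (x j)) ≤
        2 * ((univ.filter fun r => bit r (x j) ≠ bit r (x (j + 1))).card : ℝ) := by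
      exact_mod_cast e3
    have e5 : (1 - ε - η) * k * ((d : ℝ) + d) / 2 = (1 - ε - η) * k * d := by ring
    rw [← e5]
    exact e0.trans e3'
  have h2 : (s : ℝ) * ((1 - ε - η) * k * d) ≤
      2 * ∑ j ∈ range s, ((univ.filter fun r => bit r (x j) ≠ bit r (x (j + 1))).card : ℝ) := by
    rw [mul_sum]
    have := sum_le_sum h1
    rw [sum_const, card_range, nsmul_eq_mul] at this
    exact this
  have h3 : ∑ j ∈ range s, (univ.filter fun r => bit r (x j) ≠ bit r (x (j + 1))).card =
      ∑ r, changes (bit r) x 0 s := by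
    unfold changes
    rw [← range_eq_Ico]
    simp_rw [card_filter]
    exact sum_comm
  have h4 : ∀ r, changes (bit r) x 0 s ≤ 2 ^ (t + 1) - 1 := by
    intro r
    have e := prog_changes (P r.1.1 r.1.2 r.2) x 0 s (Nat.zero_le _) fun j _ hj => (hx j hj).1
    have e' : changes (P r.1.1 r.1.2 r.2).eval x 0 s = changes (bit r) x 0 s :=
      changes_congr fun j _ _ => hPe _ _ _ _
    omega
  have h5 : ∑ r, changes (bit r) x 0 s ≤ Fintype.card V * d * B * (2 ^ (t + 1) - 1) := by
    refine (sum_le_sum fun r _ => h4 r).trans ?_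
    rw [sum_const, smul_eq_mul, card_univ, Fintype.card_prod, Fintype.card_prod,
      Fintype.card_fin, Fintype.card_fin]
  have h6 : (∑ j ∈ range s, ((univ.filter fun r => bit r (x j) ≠ bit r (x (j + 1))).card : ℝ)) ≤
      Fintype.card V * d * B * (2 ^ (t + 1) - 1) := by
    have e : ((Fintype.card V * d * B * (2 ^ (t + 1) - 1) : ℕ) : ℝ) =
        Fintype.card V * d * B * (2 ^ (t + 1) - 1) := by
      rw [Nat.cast_mul, Nat.cast_sub Nat.one_le_two_pow]
      push_cast
      rfl
    rw [← e]
    rw [← h3] at h5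
    exact_mod_cast h5
  have h7 : (s : ℝ) * ((1 - ε - η) * k * d) ≤
      2 * (Fintype.card V * d * B * (2 ^ (t + 1) - 1)) := h2.trans (by linarith)
  have e8 : (1 - ε - η) * (k / Fintype.card V) * s =
      (s * ((1 - ε - η) * k * d)) / (Fintype.card V * d) := by
    field_simp
  rw [e8, div_le_iff₀ (by positivity)]
  calc (s : ℝ) * ((1 - ε - η) * k * d) ≤
      2 * (Fintype.card V * d * B * (2 ^ (t + 1) - 1)) := h7
    _ = 2 * B * (2 ^ (t + 1) - 1) * (Fintype.card V * d) := by ring

/-- monotone reductions need exponentially large graphs -/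
theorem mono_exp {f : (Fin N → Bool) → Bool} {G : (Fin N → Bool) → SimpleGraph V}
    {d : (Fin N → Bool) → ℕ} {k s : ℕ} {ε η : ℝ} (h : Reduces f G d k ε η)
    (hk : k ≤ Fintype.card V) (hk1 : 1 ≤ k) (hε : 0 ≤ ε) (hη : 0 ≤ η) (hεη : ε + η < 1)
    (x : ℕ → Fin N → Bool) (hx : Alternates f s x) (hG : Monotone G) :
    Real.exp ((1 - ε - η) * (k / Fintype.card V) * s) * d (x 0) ≤ d (x s) := by
  have hn0 : (0 : ℝ) < Fintype.card V := by exact_mod_cast (lt_of_lt_of_le hk1 hk)
  set n : ℝ := (Fintype.card V : ℝ) with hn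
  have hγ : 0 < 1 - ε - η := by linarith
  set g : ℝ := (1 - ε - η) * (k / n) with hg
  have hkn : (k : ℝ) / n ≤ 1 := by
    rw [div_le_one hn0, hn]
    exact_mod_cast hk
  have hkn0 : 0 ≤ (k : ℝ) / n := by positivity
  have hg0 : 0 ≤ g := by positivity
  have hg1 : g ≤ 1 := by
    calc g ≤ 1 * 1 := mul_le_mul (by linarith) hkn hkn0 (by norm_num)
      _ = 1 := by ring
  have step : ∀ j < s, Real.exp g * (d (x j) : ℝ) ≤ d (x (j + 1)) := by
    intro j hj
    have e0 := pair_le h hk hε hη hεη (Ne.symm (hx j hj).2)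
    have hle : G (x j) ≤ G (x (j + 1)) := hG (hx j hj).1
    have e1 : lost (G (x j)) (G (x (j + 1))) = 0 := by
      unfold lost
      rw [card_eq_zero, eq_empty_iff_forall_notMem]
      intro p hp
      rw [mem_filter] at hp
      exact hp.2.2 (hle hp.2.1)
    have e2 := Pool.Agent.Y601.SSE.lost_sub (G (x j)) (G (x (j + 1)))
    rw [edges_eq (h.regular _), edges_eq (h.regular _), e1] at e2
    have e3 : (d (x j) : ℝ) * n + lost (G (x (j + 1))) (G (x j)) = d (x (j + 1)) * n := by
      rw [hn]
      have : (((d (x j) * Fintype.card V + lost (G (x (j + 1))) (G (x j)) : ℕ)) : ℝ) =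
        ((d (x (j + 1)) * Fintype.card V + 0 : ℕ) : ℝ) := by rw [e2]
      push_cast at this
      linarith
    rw [e1] at e0
    have e4 : g * n = (1 - ε - η) * k := by
      rw [hg]
      field_simp
    have e5 : g * (((d (x j) : ℝ) + d (x (j + 1))) / 2) ≤ d (x (j + 1)) - d (x j) := by
      have : g * (((d (x j) : ℝ) + d (x (j + 1))) / 2) * n ≤ (d (x (j + 1)) - d (x j)) * n := by
        calc g * (((d (x j) : ℝ) + d (x (j + 1))) / 2) * n =
            (g * n) * (((d (x j) : ℝ) + d (x (j + 1))) / 2) := by ring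
          _ = (1 - ε - η) * k * ((d (x j) : ℝ) + d (x (j + 1))) / 2 := by rw [e4]; ring
          _ ≤ ((0 : ℕ) : ℝ) + lost (G (x (j + 1))) (G (x j)) := e0
          _ = (d (x (j + 1)) - d (x j)) * n := by push_cast; linarith
      exact le_of_mul_le_mul_right this hn0
    -- `d' (1 - g / 2) ≥ d (1 + g / 2)` and `(1 + g/2) / (1 - g/2) ≥ exp g`
    have e6 : (d (x j) : ℝ) * (1 + g / 2) ≤ d (x (j + 1)) * (1 - g / 2) := by linarith
    have e7 : Real.exp g * (1 - g / 2) ≤ 1 + g / 2 := by
      -- `exp (g) (1 - g/2) ≤ 1 + g/2` for `0 ≤ g`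
      have hmono : MonotoneOn (fun y : ℝ => 1 + y / 2 - Real.exp y * (1 - y / 2)) (Set.Ici 0) := by
        apply monotoneOn_of_deriv_nonneg (convex_Ici 0)
        · fun_prop
        · intro y _
          exact DifferentiableAt.differentiableWithinAt (by fun_prop)
        · intro y hy
          rw [interior_Ici, Set.mem_Ioi] at hy
          have hd : HasDerivAt (fun y : ℝ => 1 + y / 2 - Real.exp y * (1 - y / 2))
              (1 / 2 - (Real.exp y * (1 - y / 2) + Real.exp y * (-(1 / 2)))) y := by
            have h1 : HasDerivAt (fun y : ℝ => 1 + y / 2) (1 / 2) y := by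
              have := ((hasDerivAt_id y).div_const 2).const_add 1
              simpa using this
            have h2 : HasDerivAt (fun y : ℝ => 1 - y / 2) (-(1 / 2)) y := by
              have := ((hasDerivAt_id y).div_const 2).const_sub 1
              simpa using this
            exact h1.sub ((Real.hasDerivAt_exp y).mul h2)
          rw [hd.deriv]
          have h3 : 1 - y ≤ Real.exp (-y) := by
            have := Real.add_one_le_exp (-y)
            linarith
          have h4 : Real.exp y * (1 - y) ≤ 1 := by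
            calc Real.exp y * (1 - y) ≤ Real.exp y * Real.exp (-y) :=
                  mul_le_mul_of_nonneg_left h3 (Real.exp_pos y).le
              _ = 1 := by rw [← Real.exp_add]; simp
          linarith
      have := hmono (Set.mem_Ici.2 le_rfl) (Set.mem_Ici.2 hg0) hg0
      simp at this
      linarith
    have e8 : 0 < 1 - g / 2 := by linarith
    have hd : (0 : ℝ) ≤ d (x j) := Nat.cast_nonneg _
    have e9 : Real.exp g * (d (x j) : ℝ) * (1 - g / 2) ≤ d (x (j + 1)) * (1 - g / 2) := by
      calc Real.exp g * (d (x j) : ℝ) * (1 - g / 2) = d (x j) * (Real.exp g * (1 - g / 2)) := by ring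
        _ ≤ d (x j) * (1 + g / 2) := mul_le_mul_of_nonneg_left e7 hd
        _ ≤ _ := e6
    exact le_of_mul_le_mul_right e9 e8
  have main : ∀ j ≤ s, Real.exp (g * j) * (d (x 0) : ℝ) ≤ d (x j) := by
    intro j
    induction j with
    | zero => intro _; simp
    | succ j ih =>
      intro hj
      have h1 := ih (by omega)
      have h2 := step j (by omega)
      calc Real.exp (g * ((j + 1 : ℕ) : ℝ)) * (d (x 0) : ℝ) =
          Real.exp g * (Real.exp (g * j) * d (x 0)) := by
            rw [← mul_assoc, ← Real.exp_add]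
            congr 2
            push_cast
            ring
        _ ≤ Real.exp g * d (x j) := mul_le_mul_of_nonneg_left h1 (Real.exp_pos g).le
        _ ≤ _ := h2
  exact main s le_rfl

end bounds

/-! ### circuits for parity with the optimal number of NOT gates -/

section parity

/-- append a NOT gate -/
def Prog.not : {n t : ℕ} → Prog n t → Prog n (t + 1)
  | n, _, .out m hm => .neg m hm (.out (fun w => w (Fin.last n)) fun _ _ h => h _)
  | _, _, .neg m hm rest => .neg m hm rest.not

theorem Prog.eval_not {n t : ℕ} (p : Prog n t) : ∀ w, p.not.eval w = !(p.eval w) := by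
  induction p with
  | out m hm => intro w; simp [Prog.not, Prog.eval]
  | neg m hm rest ih => intro w; simp only [Prog.not, Prog.eval]; exact ih _

theorem mono_aux : ∀ a a' b b' c c' : Bool, a ≤ a' → b ≤ b' → c ≤ c' →
    ((a && b) || c) ≤ ((a' && b') || c') := by decide

theorem mono_step {n : ℕ} (T : ℕ → (Fin n → Bool) → Bool) (hT : ∀ q, Monotone (T q)) (e q : ℕ) :
    Monotone (fun w : Fin (n + 1) → Bool => (T q (Fin.init w) && w (Fin.last n)) ||
      T (e + q) (Fin.init w)) := by
  intro w w' h
  have h1 : Fin.init w ≤ Fin.init w' := fun i => h _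
  exact mono_aux _ _ _ _ _ _ (hT q h1) (h (Fin.last n)) (hT (e + q) h1)

/-- parity from threshold functions -/
def build : (t : ℕ) → {n : ℕ} → (T : ℕ → (Fin n → Bool) → Bool) → (∀ q, Monotone (T q)) → Prog n t
  | 0, _, T, hT => .out (T 1) (hT 1)
  | t + 1, n, T, hT => .neg (T (2 ^ (t + 1))) (hT _)
      (build t (n := n + 1) (fun q w => (T q (Fin.init w) && w (Fin.last n)) ||
        T (2 ^ (t + 1) + q) (Fin.init w)) (mono_step T hT (2 ^ (t + 1))))

theorem build_eval (t : ℕ) : ∀ {n : ℕ} (T : ℕ → (Fin n → Bool) → Bool)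
    (hT : ∀ q, Monotone (T q)) (w : Fin n → Bool) (r : ℕ), r < 2 ^ (t + 1) →
    (∀ q, T q w = decide (q ≤ r)) → (build t T hT).eval w = decide (Odd r) := by
  induction t with
  | zero =>
    intro n T hT w r hr h
    show T 1 w = _
    rw [h 1]
    have : r = 0 ∨ r = 1 := by
      simp at hr
      omega
    rcases this with rfl | rfl <;> decide
  | succ t ih =>
    intro n T hT w r hr h
    have hp : 2 ^ (t + 1 + 1) = 2 ^ (t + 1) + 2 ^ (t + 1) := by ring
    have hev : Even (2 ^ (t + 1)) := by
      rw [pow_succ]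
      exact even_two.mul_left _
    unfold build Prog.eval
    by_cases hc : 2 ^ (t + 1) ≤ r
    · have h1 := ih (n := n + 1) (fun q w => (T q (Fin.init w) && w (Fin.last n)) ||
        T (2 ^ (t + 1) + q) (Fin.init w)) (mono_step T hT (2 ^ (t + 1)))
        (Fin.snoc w (!(T (2 ^ (t + 1)) w)))
        (r - 2 ^ (t + 1)) (by omega) (by
          intro q
          simp only [Fin.init_snoc, Fin.snoc_last]
          rw [h, h, h]
          simp only [hc, decide_true, Bool.not_true, Bool.and_false, Bool.false_or]
          congr 1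
          rw [eq_iff_iff]
          omega)
      rw [h1]
      congr 1
      rw [eq_iff_iff]
      obtain ⟨r', rfl⟩ := Nat.exists_eq_add_of_le hc
      rw [Nat.add_sub_cancel_left, Nat.odd_add, ← Nat.not_even_iff_odd, ← Nat.not_even_iff_odd]
      tauto
    · have h1 := ih (n := n + 1) (fun q w => (T q (Fin.init w) && w (Fin.last n)) ||
        T (2 ^ (t + 1) + q) (Fin.init w)) (mono_step T hT (2 ^ (t + 1)))
        (Fin.snoc w (!(T (2 ^ (t + 1)) w)))
        r (by omega) (by
          intro q
          simp only [Fin.init_snoc, Fin.snoc_last]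
          rw [h, h, h]
          simp only [hc, decide_false, Bool.not_false, Bool.and_true]
          have : ¬ (2 ^ (t + 1) + q ≤ r) := by omega
          simp [this])
      exact h1

theorem parity_prog (N t : ℕ) (hN : N < 2 ^ (t + 1)) : ∃ P : Prog N t, ∀ x,
    P.eval x = decide (Odd (univ.filter fun i => x i = true).card) := by
  refine ⟨build t (fun q x => decide (q ≤ (univ.filter fun i => x i = true).card)) (by
    intro q x y h
    have h1 : (univ.filter fun i => x i = true).card ≤ (univ.filter fun i => y i = true).card := by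
      refine card_le_card fun i hi => ?_
      rw [mem_filter] at hi ⊢
      refine ⟨mem_univ _, ?_⟩
      have := h i
      rw [hi.2] at this
      exact top_le_iff.1 this
    simp only
    by_cases hq : q ≤ (univ.filter fun i => x i = true).card
    · simp [hq, hq.trans h1]
    · simp [hq]), fun x => ?_⟩
  refine build_eval t _ _ x _ ?_ fun q => rfl
  refine lt_of_le_of_lt (card_le_univ _) ?_
  rw [Fintype.card_fin]
  exact hN

/-- the map which takes the even inputs to `Y` and the odd inputs to `Z` -/
theorem neg_sharp (N t : ℕ) (hN : N < 2 ^ (t + 1)) {V : Type} [Fintype V] (Y Z : SimpleGraph V)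
    (p : V × V) (hp : ¬ (Y.Adj p.1 p.2 ↔ Z.Adj p.1 p.2)) :
    ∃ t' ≤ t + 1, ∃ P : Prog N t', ∀ x, P.eval x = true ↔
      (if Even (univ.filter fun i => x i = true).card then Y else Z).Adj p.1 p.2 := by
  obtain ⟨P, hP⟩ := parity_prog N t hN
  by_cases hY : Y.Adj p.1 p.2
  · have hZ : ¬ Z.Adj p.1 p.2 := by tauto
    refine ⟨t + 1, le_rfl, P.not, fun x => ?_⟩
    rw [Prog.eval_not, hP]
    by_cases hE : Even (univ.filter fun i => x i = true).card
    · simp [hE, hY, Nat.not_odd_iff_even.2 hE]
    · simp [hE, hZ, Nat.not_even_iff_odd.1 hE]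
  · have hZ : Z.Adj p.1 p.2 := by tauto
    refine ⟨t, Nat.le_succ t, P, fun x => ?_⟩
    rw [hP]
    by_cases hE : Even (univ.filter fun i => x i = true).card
    · simp [hE, hY, Nat.not_odd_iff_even.2 hE]
    · simp [hE, hZ, Nat.not_even_iff_odd.1 hE]

end parity

end Pool.Agent.K7.H42.SSE
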