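import Pool.Agent.K7.H42.SSE.Deg

set_option autoImplicit false
set_option linter.unusedSectionVars false

/-!
# Reductions to small-set expansion with unate entries
-/

namespace Pool.Agent.K7.H42.SSE

open Finset
open scoped Classical
open Pool.Agent.Y601.SSE (cut lost differ edges_eq)

section unate

variable {I : Type} [Fintype I] [DecidableEq I]

/-- `h` is unate: every variable `i` has a preferred value `σ i`, and giving the preferred value to a
variable does not make `h` false -/
def Unate (h : (I → Bool) → Bool) : Prop :=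
  ∃ σ : I → Bool, ∀ i x, x i ≠ σ i → h x = true → h (flip i x) = true

/-- linear threshold functions are unate -/
theorem unate_threshold (w : I → ℝ) (θ : ℝ) :
    Unate (fun x => decide (θ ≤ ∑ i, w i * bits x i)) := by
  refine ⟨fun i => decide (0 ≤ w i), fun i x hx h => ?_⟩
  rw [decide_eq_true_eq] at h ⊢
  refine h.trans ?_
  rw [← add_sum_erase univ (fun j => w j * bits x j) (mem_univ i),
    ← add_sum_erase univ (fun j => w j * bits (flip i x) j) (mem_univ i)]
  have h1 : ∑ j ∈ univ.erase i, w j * bits (flip i x) j = ∑ j ∈ univ.erase i, w j * bits x j := by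
    refine sum_congr rfl fun j hj => ?_
    unfold bits
    rw [flip_ne (ne_of_mem_erase hj)]
  rw [h1]
  have h2 : w i * bits x i ≤ w i * bits (flip i x) i := by
    unfold bits
    rw [flip_self]
    by_cases h0 : 0 ≤ w i
    · have : x i = false := by
        have : x i ≠ true := by simpa [h0] using hx
        simpa using this
      simp [this, h0]
    · have : x i = true := by
        have : x i ≠ false := by simpa [h0] using hx
        simpa using this
      simp [this]
      exact (not_le.1 h0).le
  linarith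

/-- the sign of a bit with respect to the preferred value -/
def dev (σ : I → Bool) (i : I) (x : I → Bool) : ℝ := if x i = σ i then 1 else -1

theorem bd_unate {h : (I → Bool) → Bool} {σ : I → Bool}
    (hσ : ∀ i x, x i ≠ σ i → h x = true → h (flip i x) = true) :
    (bd (univ.filter fun x => h x = true) (univ.filter fun x => h x = false) : ℝ) =
      ∑ x ∈ univ.filter (fun x => h x = true), ∑ i, dev σ i x := by
  set A := univ.filter fun x : I → Bool => h x = true with hA
  have h1 : (bd A (univ.filter fun x => h x = false) : ℝ) =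
      ∑ i, ((A.filter fun x => h (flip i x) = false).card : ℝ) := by
    unfold bd
    push_cast
    have : ∀ x ∈ A, ((univ.filter fun i => flip i x ∈ univ.filter fun x => h x = false).card : ℝ) =
        ∑ i, if h (flip i x) = false then (1 : ℝ) else 0 := by
      intro x _
      rw [card_filter]
      push_cast
      exact sum_congr rfl fun i _ => by simp
    rw [sum_congr rfl this, sum_comm]
    refine sum_congr rfl fun i _ => ?_
    rw [card_filter]
    push_cast
    rfl
  rw [h1, sum_comm]
  refine sum_congr rfl fun i _ => ?_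
  have h2 : ∑ x ∈ A, dev σ i x = ((A.filter fun x => x i = σ i).card : ℝ) -
      (A.filter fun x => ¬ x i = σ i).card := by
    rw [← sum_filter_add_sum_filter_not A (fun x => x i = σ i)]
    rw [sum_congr rfl (g := fun _ => (1 : ℝ)) fun x hx => by
      unfold dev; rw [if_pos (mem_filter.1 hx).2]]
    rw [sum_congr rfl (s₁ := A.filter fun x => ¬ x i = σ i) (g := fun _ => (-1 : ℝ)) fun x hx => by
      unfold dev; rw [if_neg (mem_filter.1 hx).2]]
    simp
    ring
  rw [h2]
  have h3 : (A.filter fun x => x i = σ i).card =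
      (A.filter fun x => h (flip i x) = false).card + (A.filter fun x => ¬ x i = σ i).card := by
    have e1 : (A.filter fun x => ¬ x i = σ i).card =
        (A.filter fun x => x i = σ i ∧ h (flip i x) = true).card := by
      apply card_bij' (fun x _ => flip i x) (fun x _ => flip i x)
      · intro x hx
        rw [mem_filter, hA, mem_filter] at hx
        rw [mem_filter, hA, mem_filter]
        refine ⟨⟨mem_univ _, hσ i x hx.2 hx.1.2⟩, ?_, ?_⟩
        · rw [flip_self]
          have := hx.2
          revert this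
          cases x i <;> cases σ i <;> simp
        · rw [flip_flip]
          exact hx.1.2
      · intro x hx
        rw [mem_filter, hA, mem_filter] at hx
        rw [mem_filter, hA, mem_filter]
        refine ⟨⟨mem_univ _, hx.2.2⟩, ?_⟩
        rw [flip_self, hx.2.1]
        simp
      · intro x _
        exact flip_flip i x
      · intro x _
        exact flip_flip i x
    rw [e1, ← card_union_of_disjoint]
    · congr 1
      ext x
      simp only [mem_union, mem_filter]
      constructor
      · intro hx
        cases hf : h (flip i x)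
        · left; exact ⟨hx.1, rfl⟩
        · right; exact ⟨hx.1, hx.2, rfl⟩
      · rintro (hx | hx)
        · refine ⟨hx.1, ?_⟩
          by_contra hne
          have := hσ i x hne (by rw [hA, mem_filter] at hx; exact hx.1.2)
          rw [hx.2] at this
          exact absurd this (by simp)
        · exact ⟨hx.1, hx.2.1⟩
    · rw [disjoint_left]
      intro x hx hx'
      rw [mem_filter] at hx hx'
      rw [hx.2] at hx'
      exact absurd hx'.2.2 (by simp)
  rw [h3]
  push_cast
  ring

theorem sum_exp (σ : I → Bool) (l : ℝ) :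
    ∑ x : I → Bool, Real.exp (l * ∑ i, dev σ i x) ≤
      2 ^ Fintype.card I * Real.exp (Fintype.card I * (l ^ 2 / 2)) := by
  have h1 : ∀ x : I → Bool, Real.exp (l * ∑ i, dev σ i x) =
      ∏ i, Real.exp (l * if x i = σ i then 1 else -1) := by
    intro x
    rw [mul_sum, Real.exp_sum]
    rfl
  rw [sum_congr rfl fun x _ => h1 x]
  have h2 := Finset.prod_univ_sum (fun _ : I => (univ : Finset Bool))
    (fun i b => Real.exp (l * if b = σ i then 1 else -1))
  rw [Fintype.piFinset_univ] at h2
  rw [← h2]
  have h3 : ∀ i : I, ∑ b : Bool, Real.exp (l * if b = σ i then 1 else -1) = 2 * Real.cosh l := by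
    intro i
    rw [Fintype.sum_bool, Real.cosh_eq]
    cases σ i <;> simp <;> ring
  rw [prod_congr rfl fun i _ => h3 i, prod_const, card_univ, mul_pow]
  refine mul_le_mul_of_nonneg_left ?_ (by positivity)
  rw [Real.exp_nat_mul]
  exact pow_le_pow_left₀ (Real.cosh_pos l).le (Real.cosh_le_exp_half_sq l) _

end unate

section bounds

variable {N : ℕ} {V : Type} [Fintype V]

theorem unate_matrix {f : (Fin N → Bool) → Bool} {G : (Fin N → Bool) → SimpleGraph V}
    {d : (Fin N → Bool) → ℕ} {k s : ℕ} {ε η : ℝ} (h : Reduces f G d k ε η)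
    (hk : k ≤ Fintype.card V) (hk1 : 1 ≤ k) (hε : 0 ≤ ε) (hη : 0 ≤ η) (hεη : ε + η < 1)
    (hs : ∀ x, s ≤ sens f x) (hU : ∀ u v, Unate (fun x => decide ((G x).Adj u v))) :
    Real.exp (((1 - ε - η) * (k / Fintype.card V) * s) ^ 2 / (8 * N)) ≤ Fintype.card V := by
  have hn0 : (0 : ℝ) < Fintype.card V := by exact_mod_cast (lt_of_lt_of_le hk1 hk)
  set n : ℝ := (Fintype.card V : ℝ) with hn
  set D : ℝ := ∑ x, (d x : ℝ) with hD
  have hγ : 0 < 1 - ε - η := by linarith
  set g : ℝ := (1 - ε - η) * (k / n) with hg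
  have hk0 : (0 : ℝ) < k := by exact_mod_cast hk1
  have hg0 : 0 < g := by positivity
  choose σ hσ using hU
  -- the set of all ones of all entries
  set Q : Finset ((V × V) × (Fin N → Bool)) :=
    univ.filter fun q => (G q.2).Adj q.1.1 q.1.2 with hQ
  set M : ℝ := (Q.card : ℝ) with hM
  have hM1 : M = n * D := by
    rw [hM, hQ, card_filter]
    push_cast
    rw [Fintype.sum_prod_type, sum_comm, hD, mul_sum]
    refine sum_congr rfl fun x _ => ?_
    have : ∑ p : V × V, (if (G x).Adj p.1 p.2 then (1 : ℝ) else 0) =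
        ((univ.filter fun p : V × V => (G x).Adj p.1 p.2).card : ℝ) := by
      rw [card_filter]
      push_cast
      rfl
    rw [this, edges_eq (h.regular x), hn]
    push_cast
    ring
  have h2N : (0 : ℝ) < 2 ^ N := by positivity
  have hD1 : (2 : ℝ) ^ N ≤ D := by
    have : ∑ _x : Fin N → Bool, (1 : ℝ) ≤ D := by
      rw [hD]
      exact sum_le_sum fun x _ => by exact_mod_cast h.pos x
    rw [sum_const, card_univ, Fintype.card_fun, Fintype.card_bool, Fintype.card_fin,
      nsmul_eq_mul] at this
    push_cast at this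
    linarith
  have hM2 : n * 2 ^ N ≤ M := by
    rw [hM1]
    exact mul_le_mul_of_nonneg_left hD1 hn0.le
  have hM0 : 0 < M := lt_of_lt_of_le (by positivity) hM2
  -- the total boundary
  set T : ℝ := ∑ x, ∑ i, (lost (G x) (G (flip i x)) : ℝ) with hT
  have hT1 : g * s * M / 2 ≤ T := by
    have h1 := total_lost h hk hε hη hεη hs
    have e : g * s * M / 2 = (1 - ε - η) * k * s * D / 2 := by
      rw [hM1, hg]
      field_simp
    rw [e]
    exact h1
  let S : (V × V) × (Fin N → Bool) → ℝ := fun q => ∑ i, dev (σ q.1.1 q.1.2) i q.2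
  have hT2 : T = ∑ q ∈ Q, S q := by
    have h1 : T = ∑ p : V × V, (bd (univ.filter fun x => (G x).Adj p.1 p.2)
        (univ.filter fun x => ¬ (G x).Adj p.1 p.2) : ℝ) := by
      rw [hT]
      exact_mod_cast (sum_bd G).symm
    have h0 : ∑ q ∈ Q, S q = ∑ p : V × V, ∑ x : Fin N → Bool,
        if (G x).Adj p.1 p.2 then S (p, x) else 0 := by
      rw [hQ, sum_filter, Fintype.sum_prod_type]
    rw [h1, h0]
    refine sum_congr rfl fun p _ => ?_
    have h2 := bd_unate (h := fun x => decide ((G x).Adj p.1 p.2)) (hσ p.1 p.2)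
    have e1 : (univ.filter fun x => decide ((G x).Adj p.1 p.2) = true) =
        univ.filter fun x => (G x).Adj p.1 p.2 := filter_congr fun x _ => by simp
    have e2 : (univ.filter fun x => decide ((G x).Adj p.1 p.2) = false) =
        univ.filter fun x => ¬ (G x).Adj p.1 p.2 := filter_congr fun x _ => by simp
    rw [e1, e2] at h2
    rw [h2, sum_filter]
  have key : ∀ l : ℝ, 0 < l → l * (g * s / 2) ≤ Real.log n + N * (l ^ 2 / 2) := by
    intro l hl
    have h1 : Real.exp (∑ q ∈ Q, M⁻¹ • (l * S q)) ≤ ∑ q ∈ Q, M⁻¹ • Real.exp (l * S q) := by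
      refine convexOn_exp.map_sum_le (fun _ _ => by positivity) ?_ (fun _ _ => Set.mem_univ _)
      rw [sum_const, nsmul_eq_mul]
      exact mul_inv_cancel₀ hM0.ne'
    simp only [smul_eq_mul] at h1
    rw [← mul_sum, ← mul_sum, ← mul_sum, ← hT2] at h1
    have h2 : ∑ q ∈ Q, Real.exp (l * S q) ≤ n * n * (2 ^ N * Real.exp (N * (l ^ 2 / 2))) := by
      calc ∑ q ∈ Q, Real.exp (l * S q) ≤ ∑ q, Real.exp (l * S q) :=
            sum_le_sum_of_subset_of_nonneg (subset_univ _) fun _ _ _ => (Real.exp_pos _).le
        _ = ∑ p : V × V, ∑ x, Real.exp (l * ∑ i, dev (σ p.1 p.2) i x) := by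
            rw [Fintype.sum_prod_type]
        _ ≤ ∑ _p : V × V, 2 ^ N * Real.exp (N * (l ^ 2 / 2)) := by
            refine sum_le_sum fun p _ => ?_
            have := sum_exp (σ p.1 p.2) l
            rw [Fintype.card_fin] at this
            exact this
        _ = n * n * (2 ^ N * Real.exp (N * (l ^ 2 / 2))) := by
            rw [sum_const, card_univ, Fintype.card_prod, nsmul_eq_mul, hn]
            push_cast
            rfl
    have h3 : Real.exp (M⁻¹ * (l * T)) ≤ n * Real.exp (N * (l ^ 2 / 2)) := by
      calc Real.exp (M⁻¹ * (l * T)) ≤ M⁻¹ * ∑ q ∈ Q, Real.exp (l * S q) := h1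
        _ ≤ M⁻¹ * (n * n * (2 ^ N * Real.exp (N * (l ^ 2 / 2)))) :=
            mul_le_mul_of_nonneg_left h2 (by positivity)
        _ = (M⁻¹ * (n * 2 ^ N)) * (n * Real.exp (N * (l ^ 2 / 2))) := by ring
        _ ≤ 1 * (n * Real.exp (N * (l ^ 2 / 2))) := by
            refine mul_le_mul_of_nonneg_right ?_ (by positivity)
            rw [inv_mul_le_iff₀ hM0, mul_one]
            exact hM2
        _ = n * Real.exp (N * (l ^ 2 / 2)) := one_mul _
    have h4 : M⁻¹ * (l * T) ≤ Real.log n + N * (l ^ 2 / 2) := by
      have := Real.log_le_log (Real.exp_pos _) h3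
      rw [Real.log_exp, Real.log_mul hn0.ne' (Real.exp_pos _).ne', Real.log_exp] at this
      exact this
    have h5 : l * (g * s / 2) ≤ M⁻¹ * (l * T) := by
      rw [le_inv_mul_iff₀ hM0]
      calc M * (l * (g * s / 2)) = l * (g * s * M / 2) := by ring
        _ ≤ l * T := mul_le_mul_of_nonneg_left hT1 hl.le
    exact h5.trans h4
  have hlog : (g * s) ^ 2 / (8 * N) ≤ Real.log n := by
    rcases Nat.eq_zero_or_pos N with hN | hN
    · subst hN
      simp only [Nat.cast_zero, mul_zero, div_zero]
      apply Real.log_nonneg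
      rw [hn]
      exact_mod_cast (hk1.trans hk)
    · have hN0 : (0 : ℝ) < N := by exact_mod_cast hN
      rcases Nat.eq_zero_or_pos s with h0 | h0
      · subst h0
        simp only [Nat.cast_zero, mul_zero]
        rw [zero_pow two_ne_zero, zero_div]
        apply Real.log_nonneg
        rw [hn]
        exact_mod_cast (hk1.trans hk)
      · have hs0 : (0 : ℝ) < s := by exact_mod_cast h0
        have h1 := key (g * s / (2 * N)) (by positivity)
        have e1 : g * s / (2 * N) * (g * s / 2) = 2 * ((g * s) ^ 2 / (8 * N)) := by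
          field_simp
          ring
        have e2 : (N : ℝ) * ((g * s / (2 * N)) ^ 2 / 2) = (g * s) ^ 2 / (8 * N) := by
          field_simp
          ring
        rw [e1, e2] at h1
        linarith
  calc Real.exp ((g * s) ^ 2 / (8 * N)) ≤ Real.exp (Real.log n) := Real.exp_le_exp.2 hlog
    _ = n := Real.exp_log hn0

/-- the second moment -/
theorem sum_dev_sq (σ : Fin N → Bool) :
    ∑ x : Fin N → Bool, (∑ i, dev σ i x) ^ 2 = 2 ^ N * N := by
  have h1 : ∀ x : Fin N → Bool, ∑ i, dev σ i x =
      ∑ S ∈ univ.image (fun i : Fin N => ({i} : Finset (Fin N))),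
        (∑ i, if S = {i} then sg (σ i) else 0) * chi S x := by
    intro x
    rw [sum_image (fun i _ j _ h => Finset.singleton_injective h)]
    refine sum_congr rfl fun i _ => ?_
    rw [sum_eq_single i]
    · rw [if_pos rfl]
      unfold dev chi sg
      rw [prod_singleton]
      cases x i <;> cases σ i <;> simp
    · intro j _ hj
      rw [if_neg fun h => hj (Finset.singleton_injective h).symm]
    · intro h
      exact absurd (mem_univ _) h
  rw [sum_congr rfl fun x _ => by rw [h1 x], sum_sq_chi, Fintype.card_fin]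
  congr 1
  rw [sum_image (fun i _ j _ h => Finset.singleton_injective h)]
  have h2 : ∀ i : Fin N, (∑ j, if ({i} : Finset (Fin N)) = {j} then sg (σ j) else 0) ^ 2 = 1 := by
    intro i
    rw [sum_eq_single i]
    · rw [if_pos rfl, sq, sg_sq]
    · intro j _ hj
      rw [if_neg fun h => hj (Finset.singleton_injective h).symm]
    · intro h
      exact absurd (mem_univ _) h
  rw [sum_congr rfl fun i _ => h2 i]
  simp

theorem sum_dev (σ : Fin N → Bool) : ∑ x : Fin N → Bool, ∑ i, dev σ i x = 0 := by
  rw [sum_comm]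
  refine sum_eq_zero fun i _ => ?_
  have h1 : ∑ x : Fin N → Bool, dev σ i (flip i x) = ∑ x : Fin N → Bool, dev σ i x :=
    Equiv.sum_comp (flipEquiv i) (fun x => dev σ i x)
  have h2 : ∀ x : Fin N → Bool, dev σ i (flip i x) = - dev σ i x := by
    intro x
    unfold dev
    rw [flip_self]
    cases x i <;> cases σ i <;> simp
  rw [sum_congr rfl fun x _ => h2 x, sum_neg_distrib] at h1
  linarith

/-- the number of sensitive pairs of a unate function -/
theorem sens_unate {h : (Fin N → Bool) → Bool} (hU : Unate h) :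
    ((∑ x, (univ.filter fun i => h x ≠ h (flip i x)).card : ℕ) : ℝ) ≤ 2 ^ N * √(N : ℝ) := by
  obtain ⟨σ, hσ⟩ := hU
  have h1 := bd_unate hσ
  have h2 := sum_bd_two (fun (_ : Unit) x => h x)
  rw [Fintype.sum_unique] at h2
  have h3 : ∑ x, ∑ i, (univ.filter fun r : Unit => h x ≠ h (flip i x)).card =
      ∑ x, (univ.filter fun i => h x ≠ h (flip i x)).card := by
    refine sum_congr rfl fun x _ => ?_
    rw [card_filter]
    refine sum_congr rfl fun i _ => ?_
    rw [card_filter]
    simp
  rw [h3] at h2
  rw [← h2]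
  push_cast
  rw [h1]
  set A := univ.filter fun x : Fin N → Bool => h x = true with hA
  -- `∑ (1_A - 1/2) S`
  have h4 : 2 * ∑ x ∈ A, ∑ i, dev σ i x =
      ∑ x : Fin N → Bool, (if h x = true then (1 : ℝ) else -1) * ∑ i, dev σ i x := by
    have e1 : ∑ x : Fin N → Bool, (if h x = true then (1 : ℝ) else -1) * ∑ i, dev σ i x =
        ∑ x : Fin N → Bool, ((if h x = true then 2 * ∑ i, dev σ i x else 0) -
          ∑ i, dev σ i x) := by
      refine sum_congr rfl fun x _ => ?_
      split_ifs <;> ring
    rw [e1, sum_sub_distrib, sum_dev, sub_zero, ← sum_filter, mul_sum]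
  rw [h4]
  have h5 : (∑ x : Fin N → Bool, (if h x = true then (1 : ℝ) else -1) * ∑ i, dev σ i x) ^ 2 ≤
      (∑ x : Fin N → Bool, (if h x = true then (1 : ℝ) else -1) ^ 2) *
        ∑ x : Fin N → Bool, (∑ i, dev σ i x) ^ 2 := sum_mul_sq_le_sq_mul_sq _ _ _
  have h6 : ∑ x : Fin N → Bool, (if h x = true then (1 : ℝ) else -1) ^ 2 = 2 ^ N := by
    rw [sum_congr rfl (g := fun _ => (1 : ℝ)) fun x _ => by split_ifs <;> norm_num]
    rw [sum_const, card_univ, Fintype.card_fun, Fintype.card_bool, Fintype.card_fin,
      nsmul_eq_mul]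
    push_cast
    ring
  rw [h6, sum_dev_sq] at h5
  have h7 : (2 ^ N * √(N : ℝ)) ^ 2 = 2 ^ N * (2 ^ N * (N : ℝ)) := by
    rw [mul_pow, Real.sq_sqrt (Nat.cast_nonneg _)]
    ring
  rw [← h7] at h5
  exact abs_le_of_sq_le_sq' h5 (by positivity) |>.2

theorem unate_list {f : (Fin N → Bool) → Bool} {G : (Fin N → Bool) → SimpleGraph V}
    {d k s B : ℕ} {ε η : ℝ} (h : Reduces f G (fun _ => d) k ε η) (hk : k ≤ Fintype.card V)
    (hk1 : 1 ≤ k) (hε : 0 ≤ ε) (hη : 0 ≤ η) (hεη : ε + η < 1) (hs : ∀ x, s ≤ sens f x)
    (nb : (Fin N → Bool) → V → Fin d → V) (hnb : ∀ x, Lists (G x) (nb x))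
    (code : V → Fin B → Bool) (hcode : Function.Injective code)
    (hU : ∀ u j b, Unate (fun x => code (nb x u j) b)) :
    (1 - ε - η) * (k / Fintype.card V) * s ≤ 2 * B * √(N : ℝ) := by
  have hn0 : (0 : ℝ) < Fintype.card V := by exact_mod_cast (lt_of_lt_of_le hk1 hk)
  have hd1 : 1 ≤ d := h.pos fun _ => true
  have hd0 : (0 : ℝ) < d := by exact_mod_cast hd1
  have h2N : (0 : ℝ) < 2 ^ N := by positivity
  let g : ((V × Fin d) × Fin B) → (Fin N → Bool) → Bool := fun r x => code (nb x r.1.1 r.1.2) r.2
  have h1 := total_lost h hk hε hη hεη hs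
  have h3 : ∀ x i, (lost (G x) (G (flip i x)) : ℝ) ≤
      ((univ.filter fun r => g r x ≠ g r (flip i x)).card : ℝ) := by
    intro x i
    have e1 := (lost_le_changed (hnb x) (hnb (flip i x))).trans
      (changed_le_bits code hcode)
    exact_mod_cast e1
  have h4 : ∑ x, ∑ i, (lost (G x) (G (flip i x)) : ℝ) ≤
      ∑ r, ((∑ x, (univ.filter fun i => g r x ≠ g r (flip i x)).card : ℕ) : ℝ) := by
    have e : ∑ r, ∑ x, (univ.filter fun i => g r x ≠ g r (flip i x)).card =
        ∑ x, ∑ i, (univ.filter fun r => g r x ≠ g r (flip i x)).card := by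
      rw [sum_comm]
      refine sum_congr rfl fun x _ => ?_
      simp_rw [card_filter]
      exact sum_comm
    have e' : ∑ r, ((∑ x, (univ.filter fun i => g r x ≠ g r (flip i x)).card : ℕ) : ℝ) =
        ∑ x, ∑ i, ((univ.filter fun r => g r x ≠ g r (flip i x)).card : ℝ) := by
      exact_mod_cast e
    rw [e']
    exact sum_le_sum fun x _ => sum_le_sum fun i _ => h3 x i
  have h5 : ∑ r, ((∑ x, (univ.filter fun i => g r x ≠ g r (flip i x)).card : ℕ) : ℝ) ≤
      ∑ _r : (V × Fin d) × Fin B, 2 ^ N * √(N : ℝ) := by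
    refine sum_le_sum fun r _ => ?_
    exact sens_unate (hU r.1.1 r.1.2 r.2)
  rw [sum_const, card_univ, Fintype.card_prod, Fintype.card_prod, Fintype.card_fin,
    Fintype.card_fin, nsmul_eq_mul] at h5
  push_cast at h5
  have h6 : (∑ _x : Fin N → Bool, (d : ℝ)) = 2 ^ N * d := by
    rw [sum_const, nsmul_eq_mul, card_univ, Fintype.card_fun, Fintype.card_bool,
      Fintype.card_fin]
    push_cast
    rfl
  rw [h6] at h1
  have h7 : (1 - ε - η) * k * s * (2 ^ N * d) / 2 ≤
      (Fintype.card V * d * B) * (2 ^ N * √(N : ℝ)) :=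
    h1.trans (h4.trans (by push_cast; exact h5))
  have e1 : (1 - ε - η) * (k / Fintype.card V) * s =
      ((1 - ε - η) * k * s * (2 ^ N * d)) / (Fintype.card V * (2 ^ N * d)) := by
    field_simp
  rw [e1, div_le_iff₀ (by positivity)]
  calc (1 - ε - η) * k * s * (2 ^ N * d) =
      2 * ((1 - ε - η) * k * s * (2 ^ N * d) / 2) := by ring
    _ ≤ 2 * ((Fintype.card V * d * B) * (2 ^ N * √(N : ℝ))) := by linarith
    _ = 2 * B * √(N : ℝ) * (Fintype.card V * (2 ^ N * d)) := by ring

end bounds

end Pool.Agent.K7.H42.SSE
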